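import Pool.Agent.Lib.MP_e97e2b_nt.RT.CP.Basic

/-!
Divisibility.
-/

set_option autoImplicit false
set_option linter.unusedSectionVars false

namespace Pool.Agent.RT.CP

open Polynomial Filter RG.CP
open M8.CP (Uop)

namespace TC

variable {k : Type} [Field k] [IsAlgClosed k] {p : ℕ} [Fact p.Prime] [CharP k p] {gd : ℕ}
  {Vt W ι : Type} [AddCommGroup Vt] [Module ℚ Vt] [AddCommGroup W]
  [Fintype ι] (D : TC k p gd Vt W ι)

theorem basic2_bez {c : ℕ} (hc : ¬ p ∣ c) {j : ℕ} {y : W} (hy : p ^ j • y = 0) :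
    ∃ e : ℤ, c • e • y = y := by
  obtain ⟨a, b, h⟩ := Nat.isCoprime_iff_coprime.2
    (((Nat.Prime.coprime_iff_not_dvd Fact.out).2 hc).pow_left j)
  refine ⟨b, ?_⟩
  conv_rhs => rw [← one_zsmul y, ← h, add_smul, mul_smul, natCast_zsmul, hy, smul_zero, zero_add]
  rw [mul_smul, natCast_zsmul, smul_comm]

theorem exists_level (u : Vt × W) : ∃ M : ℕ, 1 ≤ M ∧ M • u.1 ∈ D.Lam ∧ M • u.2 = 0 := by
  obtain ⟨N, hN, h1⟩ := D.lam_tors u.1
  obtain ⟨j, h2⟩ := D.W_tors u.2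
  have h0 : N ≠ 0 := by
    rintro rfl
    exact hN (dvd_zero p)
  refine ⟨p ^ j * N, Nat.one_le_iff_ne_zero.2
    (mul_ne_zero (pow_ne_zero j (Fact.out : p.Prime).ne_zero) h0), ?_, ?_⟩
  · rw [mul_smul]
    exact D.Lam.nsmul_mem h1 _
  · rw [mul_comm, mul_smul, h2, smul_zero]

include D in
/-- `c = p ^ a * c'`; on a `p`-power torsion element `c'` is invertible (Bezout). -/
theorem W_nsmul_surj {c : ℕ} (hc : c ≠ 0) (y : W) : ∃ y' : W, c • y' = y := by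
  obtain ⟨a, c', hc', rfl⟩ := Nat.exists_eq_pow_mul_and_not_dvd hc p (Fact.out : p.Prime).ne_one
  have h1 : ∀ (a : ℕ) (y : W), ∃ y' : W, p ^ a • y' = y := by
    intro a
    induction a with
    | zero => exact fun y => ⟨y, by simp⟩
    | succ a ih =>
      intro y
      obtain ⟨y1, rfl⟩ := ih y
      obtain ⟨y2, rfl⟩ := D.W_div y1
      exact ⟨y2, by rw [pow_succ, mul_smul]⟩
  obtain ⟨y1, rfl⟩ := h1 a y
  obtain ⟨j, hj⟩ := D.W_tors y1
  obtain ⟨e, he⟩ := basic2_bez hc' hj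
  exact ⟨e • y1, by rw [mul_smul, he]⟩

include D in
theorem nsmul_surj {c : ℕ} (hc : c ≠ 0) (z : Vt × W) : ∃ z' : Vt × W, c • z' = z := by
  obtain ⟨y, hy⟩ := D.W_nsmul_surj hc z.2
  refine ⟨((c : ℚ)⁻¹ • z.1, y), Prod.ext ?_ hy⟩
  change c • ((c : ℚ)⁻¹ • z.1) = z.1
  rw [← Nat.cast_smul_eq_nsmul ℚ, smul_inv_smul₀ (Nat.cast_ne_zero.2 hc)]

include D in
theorem W_nsmul_inj {c : ℕ} (hc : ¬ p ∣ c) {y : W} (h : c • y = 0) : y = 0 := by
  obtain ⟨j, hj⟩ := D.W_tors y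
  obtain ⟨e, he⟩ := basic2_bez hc hj
  rw [← he, smul_comm, h, smul_zero]

theorem lam_pow (j : ℕ) {x : Vt} (h : p ^ j • x ∈ D.Lam) : x ∈ D.Lam := by
  induction j generalizing x with
  | zero => simpa using h
  | succ j ih => exact D.lam_p x (ih (by rwa [pow_succ, mul_smul] at h))

end TC

end Pool.Agent.RT.CP
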