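import Pool.Agent.Lib.MP_e97e2b_nt.RT.CP.Tw

/-!
Degrees of multiplications and of the Frobenius.
-/

set_option autoImplicit false
set_option linter.unusedSectionVars false

namespace Pool.Agent.RT.CP

open Polynomial Filter RG.CP
open M8.CP (Uop)

namespace TC

variable {k : Type} [Field k] [IsAlgClosed k] {p : ℕ} [Fact p.Prime] [CharP k p] {gd : ℕ}
  {Vt W ι : Type} [AddCommGroup Vt] [Module ℚ Vt] [AddCommGroup W]
  [Fintype ι] (D : TC k p gd Vt W ι)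

/-- the image of the pull back along multiplication by `c` -/
noncomputable abbrev Fm (c : ℕ) : IntermediateField k D.KK :=
  (D.kp (nm c : Vt × W → Vt × W)).fieldRange

theorem deg_nm_mem (c : ℕ) {n : ℕ} {f : Vt × W → k} (hf : f ∈ D.G n) :
    f ∘ (nm c : Vt × W → Vt × W) ∈ D.G (n * c ^ 2) := D.nsmul_mem hf c

theorem deg_nm_le {c : ℕ} (hc : c ≠ 0) : FiniteDimensional (D.Fm c) D.KK ∧
    Module.finrank (D.Fm c) D.KK ≤ (c ^ 2) ^ gd :=
  deg_le (D.good_nm hc) fun _ hf => by simpa using D.deg_nm_mem c hf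

theorem fin_Fm {c : ℕ} (hc : c ≠ 0) : FiniteDimensional (D.Fm c) D.KK := by
  exact (D.deg_nm_le hc).1

/-- `deg_le`, `deg_ge` with `d = c ^ 2`, `qO_nm` -/
theorem deg_Fm {c : ℕ} (hc : c ≠ 0) : Module.finrank (D.Fm c) D.KK = c ^ (2 * gd) := by
  have := D.fin_Fm hc
  rw [pow_mul]
  exact le_antisymm (D.deg_nm_le hc).2
    (deg_ge (D.good_nm hc) (Nat.pos_of_ne_zero (pow_ne_zero 2 hc)) fun O hO => qO_nm hO c)

/-- Let `0 ≠ b ∈ G n`, `u = b ^ c ^ 2 / (X0 ∘ nm c) ^ n` (`exists_ratio`). `Grow.rel` gives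
`∑ kp (a i) * u ^ i = 0`, `a i = A i / X0 ^ e`. Clear denominators: the functions
`(A i ∘ nm c) * b ^ (c ^ 2 * i) * (X0 ∘ nm c) ^ (n * (r - i))` lie in one `G N` and their sum has zero
germ, so is zero (`gm_inj_G`). Take `b' = A 0 * X0 ^ (n * r)` (`dom`). -/
theorem null_nm {c : ℕ} (hc : c ≠ 0) {n : ℕ} {b : Vt × W → k} (hb : b ∈ D.G n) (h0 : b ≠ 0) :
    ∃ n', ∃ b' ∈ D.G n', b' ≠ 0 ∧ ∀ z, b z = 0 → b' (c • z) = 0 := by
  have hg := D.good_nm hc
  have hc2 : c ^ 2 ≠ 0 := pow_ne_zero 2 hc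
  set Y : Vt × W → k := D.X0 ∘ (nm c : Vt × W → Vt × W) with hY
  have hYm : Y ^ n ∈ D.G (n * c ^ 2) := by
    have h1 := D.pow_mem (D.deg_nm_mem c D.X0_mem) n
    rwa [one_mul, mul_comm] at h1
  have hY0 : Y ^ n ≠ 0 := fun h => by
    have h1 := congrFun h 0
    simp only [hY, nm, Pi.pow_apply, Function.comp_apply, smul_zero, Pi.zero_apply] at h1
    exact pow_ne_zero n D.X0_zero h1
  have hB : b ^ c ^ 2 ∈ D.G (n * c ^ 2) := D.pow_mem hb _
  obtain ⟨u, hu⟩ := D.exists_ratio hB hYm hY0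
  have hu0 : u ≠ 0 := by
    rintro rfl
    rw [map_zero, zero_mul, map_pow] at hu
    exact ((D.isUnit_gm_G hb h0).pow _).ne_zero hu.symm
  have := D.fin_Fm hc
  obtain ⟨r, e, a, ha, ha0, hr⟩ := D.grow.rel (D.kp (nm c : Vt × W → Vt × W)) u hu0
  choose A hA hAa using ha
  have hA0 : A 0 ≠ 0 := fun h => by
    have h1 := hAa 0
    rw [h, map_zero] at h1
    exact ((D.isUnit_val ha0).mul (D.isUnit_X0.pow _)).ne_zero h1
  have hp : ∀ i, D.gm (A i ∘ (nm c : Vt × W → Vt × W)) =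
      D.val (D.kp (nm c : Vt × W → Vt × W) (a i)) * D.gm Y ^ e := fun i => by
    rw [← pull_gm hg.1, ← hAa, map_mul, map_pow, pull_gm hg.1, val_kp hg]
  have hF : ∑ i ∈ Finset.range (r + 1), A i ∘ (nm c : Vt × W → Vt × W) *
      ((b ^ c ^ 2) ^ i * (Y ^ n) ^ (r - i)) = 0 := by
    refine D.gm_inj_G (n := e * c ^ 2 + n * c ^ 2 * r)
      (Submodule.sum_mem _ fun i hi => ?_) (Submodule.zero_mem _) ?_
    · have h1 := D.mul_mem _ _ _ _ (D.pow_mem hB i) (D.pow_mem hYm (r - i))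
      rw [← mul_add, Nat.add_sub_cancel' (Nat.lt_succ_iff.1 (Finset.mem_range.1 hi))] at h1
      exact D.mul_mem _ _ _ _ (D.deg_nm_mem c (hA i)) h1
    · have h1 := congrArg (fun x => D.val x * (D.gm Y ^ e * D.gm (Y ^ n) ^ r)) hr
      simp only [map_sum, map_zero, zero_mul, Finset.sum_mul] at h1
      rw [map_sum, map_zero, ← h1]
      refine Finset.sum_congr rfl fun i hi => ?_
      have h2 : D.gm (Y ^ n) ^ r = D.gm (Y ^ n) ^ i * D.gm (Y ^ n) ^ (r - i) := by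
        rw [← pow_add, Nat.add_sub_cancel' (Nat.lt_succ_iff.1 (Finset.mem_range.1 hi))]
      rw [map_mul D.gm, map_mul D.gm, hp, map_pow D.gm _ i, map_pow D.gm _ (r - i), ← hu, h2,
        map_mul D.val, map_pow D.val]
      ring
  refine ⟨_, A 0 * (D.X0 ^ n) ^ r, D.mul_mem _ _ _ _ (hA 0) (D.pow_mem (D.pow_mem D.X0_mem n) r),
    D.dom (hA 0) (D.pow_mem (D.pow_mem D.X0_mem n) r) hA0 fun h => ?_, fun z hz => ?_⟩
  · exact pow_ne_zero r (pow_ne_zero n D.X0_zero) (congrFun h 0)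
  · have h1 := congrFun hF z
    rw [Finset.sum_apply, Finset.sum_range_succ'] at h1
    simpa [hz, zero_pow hc2, hY, nm] using h1

/-- `mem_ae`, `null_nm`, `nsmul_surj` -/
theorem quo_nm {c : ℕ} (hc : c ≠ 0) : D.Quo (nm c : Vt × W → Vt × W) := by
  intro S hS
  obtain ⟨n, b, hb, h0, h⟩ := D.mem_ae.1 hS
  obtain ⟨n', b', hb', h0', h'⟩ := D.null_nm hc hb h0
  refine D.mem_ae.2 ⟨n', b', hb', h0', fun z hz => ?_⟩
  obtain ⟨z', rfl⟩ := D.nsmul_surj hc z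
  exact h z' fun e => hz (h' z' e)

end TC

end Pool.Agent.RT.CP
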