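import Mathlib

/-!
Finite differences along a point of the kernel of the reduction.
-/

set_option autoImplicit false
set_option linter.unusedSectionVars false

namespace Pool.Agent.RT.CP

variable {K : Type} [NormedField K] [IsUltrametricDist K] {ι : Type} [Fintype ι]

/-- Integral rational functions of the coordinates. -/
inductive Germ (T : ι → ℕ → K) : (ℕ → K) → Prop
  | const (c : K) (hc : ‖c‖ ≤ 1) : Germ T fun _ => c
  | co (i : ι) : Germ T (T i)
  | add {f g : ℕ → K} : Germ T f → Germ T g → Germ T fun k => f k + g k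
  | mul {f g : ℕ → K} : Germ T f → Germ T g → Germ T fun k => f k * g k
  | inv {f : ℕ → K} : Germ T f → (∀ k, ‖f k‖ = 1) → Germ T fun k => (f k)⁻¹

variable {T : ι → ℕ → K} {π : K}

theorem Germ.norm_le (hT : ∀ i k, ‖T i k‖ ≤ 1) {f : ℕ → K} (h : Germ T f) (k : ℕ) : ‖f k‖ ≤ 1 := by
  induction h with
  | const c hc => exact hc
  | co i => exact hT i k
  | add _ _ h1 h2 => exact (IsUltrametricDist.norm_add_le_max _ _).trans (max_le h1 h2)
  | mul _ _ h1 h2 =>
    rw [norm_mul]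
    exact mul_le_one₀ h1 (norm_nonneg _) h2
  | inv _ h _ => rw [norm_inv, h, inv_one]

theorem Germ.sum {α : Type} [Fintype α] {f : α → ℕ → K} (h : ∀ a, Germ T (f a)) :
    Germ T fun k => ∑ a, f a k := by
  classical
  have h1 : ∀ s : Finset α, Germ T fun k => ∑ a ∈ s, f a k := fun s => by
    induction s using Finset.induction_on with
    | empty => simpa using Germ.const (T := T) 0 (by simp)
    | insert a s ha ih => simpa only [Finset.sum_insert ha] using (h a).add ih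
  exact h1 _

theorem Germ.neg {f : ℕ → K} (h : Germ T f) : Germ T fun k => -f k := by
  simpa using (Germ.const (T := T) (-1) (by simp)).mul h

theorem Germ.step (hπ : ‖π‖ ≤ 1)
    (hT : ∀ i, ∃ g, Germ T g ∧ ∀ k, T i (k + 1) = T i k + π * g k) {f : ℕ → K} (h : Germ T f) :
    ∃ g, Germ T g ∧ ∀ k, f (k + 1) = f k + π * g k := by
  induction h with
  | const c hc => exact ⟨_, Germ.const 0 (by simp), fun k => by simp⟩
  | co i => exact hT i
  | add _ _ h1 h2 =>
    obtain ⟨g, hg, h1⟩ := h1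
    obtain ⟨g', hg', h2⟩ := h2
    exact ⟨_, hg.add hg', fun k => by simp only [h1, h2]; ring⟩
  | mul hf hf' h1 h2 =>
    obtain ⟨g, hg, h1⟩ := h1
    obtain ⟨g', hg', h2⟩ := h2
    exact ⟨_, ((hg.mul hf').add (hf.mul hg')).add ((Germ.const π hπ).mul (hg.mul hg')),
      fun k => by simp only [h1, h2]; ring⟩
  | @inv f hf h h1 =>
    obtain ⟨g, hg, h1⟩ := h1
    refine ⟨_, (hg.neg.mul (hf.inv h)).mul ((hf.add ((Germ.const π hπ).mul hg)).inv fun k => by
      rw [← h1, h]), fun k => ?_⟩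
    have h2 : ∀ k, f k ≠ 0 := fun k => norm_pos_iff.1 (by rw [h]; exact one_pos)
    have h3 := h2 (k + 1)
    have h4 := h2 k
    rw [h1] at h3
    simp only [h1]
    field_simp
    ring

theorem Germ.iter (hπ : ‖π‖ ≤ 1)
    (hT : ∀ i, ∃ g, Germ T g ∧ ∀ k, T i (k + 1) = T i k + π * g k) (j : ℕ) {f : ℕ → K}
    (h : Germ T f) : ∃ g, Germ T g ∧ (fwdDiff 1)^[j] f = π ^ j • g := by
  induction j generalizing f with
  | zero => exact ⟨f, h, by simp⟩
  | succ j ih =>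
    obtain ⟨g, hg, h1⟩ := h.step hπ hT
    obtain ⟨g', hg', h2⟩ := ih hg
    have h3 : fwdDiff 1 f = π • g := funext fun k => by simp [fwdDiff, h1]
    exact ⟨g', hg', by
      rw [Function.iterate_succ_apply, h3, fwdDiff_iter_const_smul, h2, smul_smul, pow_succ']⟩

theorem germ_co (hπ : ‖π‖ < 1) (h0 : π ≠ 0) (hT : ∀ i k, ‖T i k‖ ≤ 1)
    (h1 : ∀ i, ‖T i 1 - T i 0‖ ≤ ‖π‖) {c : ι → ι → ι → ι → ι → K}
    (hc : ∀ a j l m o, ‖c a j l m o‖ ≤ 1) {i0 : ι} (hi : ∀ k, T i0 k = 1)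
    (l0 : ∀ a k, T a k = ∑ j, ∑ l, ∑ m, ∑ o, c a j l m o * (T j k * T l k) * (T m 0 * T o 0))
    (l1 : ∀ a k, T a (k + 1) *
      ∑ j, ∑ l, ∑ m, ∑ o, c i0 j l m o * (T j k * T l k) * (T m 1 * T o 1) =
      ∑ j, ∑ l, ∑ m, ∑ o, c a j l m o * (T j k * T l k) * (T m 1 * T o 1)) (a : ι) :
    ∃ g, Germ T g ∧ ∀ k, T a (k + 1) = T a k + π * g k := by
  have h2 : ∀ i, ∃ w, ‖w‖ ≤ 1 ∧ T i 1 = T i 0 + π * w := fun i =>
    ⟨(T i 1 - T i 0) / π, by rw [norm_div]; exact div_le_one_of_le₀ (h1 i) (norm_nonneg _), by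
      field_simp; ring⟩
  choose w hw h2 using h2
  have h3 : ∀ a, ∃ g, Germ T g ∧ ∀ k,
      ∑ j, ∑ l, ∑ m, ∑ o, c a j l m o * (T j k * T l k) * (T m 1 * T o 1) = T a k + π * g k :=
    fun a => ⟨_, Germ.sum fun j => Germ.sum fun l => Germ.sum fun m => Germ.sum fun o =>
      ((Germ.const _ (hc a j l m o)).mul ((Germ.co j).mul (Germ.co l))).mul
        ((((Germ.const _ (hw m)).mul (Germ.const _ (hT o 0))).add
          ((Germ.const _ (hT m 0)).mul (Germ.const _ (hw o)))).add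
          ((Germ.const _ hπ.le).mul ((Germ.const _ (hw m)).mul (Germ.const _ (hw o))))),
      fun k => by
        conv_rhs => rw [l0 a k]
        simp only [h2, Finset.mul_sum, ← Finset.sum_add_distrib]
        exact Finset.sum_congr rfl fun _ _ => Finset.sum_congr rfl fun _ _ =>
          Finset.sum_congr rfl fun _ _ => Finset.sum_congr rfl fun _ _ => by ring⟩
  obtain ⟨g, hg, h4⟩ := h3 a
  obtain ⟨g', hg', h5⟩ := h3 i0
  have h6 : ∀ k, ‖1 + π * g' k‖ = 1 := fun k => by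
    have h7 : ‖π * g' k‖ < ‖(1 : K)‖ := by
      rw [norm_mul, norm_one]
      exact mul_lt_one_of_nonneg_of_lt_one_left (norm_nonneg _) hπ (hg'.norm_le hT k)
    rw [IsUltrametricDist.norm_add_eq_max_of_norm_ne_norm h7.ne', max_eq_left h7.le, norm_one]
  refine ⟨_, (hg.add ((Germ.co a).mul hg').neg).mul
    (((Germ.const 1 (by simp)).add ((Germ.const π hπ.le).mul hg')).inv h6), fun k => ?_⟩
  have h7 := l1 a k
  have h8 : 1 + π * g' k ≠ 0 := norm_pos_iff.1 (by rw [h6]; exact one_pos)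
  rw [h4, h5, hi] at h7
  field_simp
  linear_combination h7

variable {f : ℕ → K}

theorem dif_expand (f : ℕ → K) (n : ℕ) : f (n + 1) - f 0 - (n + 1 : ℕ) * (f 1 - f 0) =
    ∑ j ∈ Finset.range n, ((n + 1).choose (j + 2) : K) * (fwdDiff 1)^[j + 2] f 0 := by
  have h := shift_eq_sum_fwdDiff_iter 1 f (n + 1) 0
  rw [zero_add, smul_eq_mul, mul_one, Finset.sum_range_succ', Finset.sum_range_succ'] at h
  rw [h]
  simp [fwdDiff]

theorem dif_lin (hπ : ‖π‖ ≤ 1) (h : ∀ j, ‖(fwdDiff 1)^[j] f 0‖ ≤ ‖π‖ ^ j) (n : ℕ) :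
    ‖f n - f 0 - n * (f 1 - f 0)‖ ≤ ‖π‖ ^ 2 := by
  cases n with
  | zero => simp
  | succ n =>
    rw [dif_expand]
    refine IsUltrametricDist.norm_sum_le_of_forall_le_of_nonneg (by positivity) fun j _ => ?_
    rw [norm_mul]
    exact (mul_le_of_le_one_left (norm_nonneg _) (IsUltrametricDist.norm_natCast_le_one K _)).trans
      ((h _).trans (pow_le_pow_of_le_one (norm_nonneg _) hπ (by omega)))

theorem dif_bound (hπ : ‖π‖ < 1) (h0 : π ≠ 0) (h : ∀ j, ‖(fwdDiff 1)^[j] f 0‖ ≤ ‖π‖ ^ j) {p : ℕ}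
    (hp : p.Prime) (h1 : f 1 - f 0 = π) (h2 : f p = f 0) : ‖(p : K)‖ ≤ ‖π‖ ^ (p - 1) := by
  obtain ⟨n, rfl⟩ : ∃ n, p = n + 1 := ⟨p - 1, by have := hp.pos; omega⟩
  have h3 := dif_expand f n
  have h4 : 0 < ‖π‖ := norm_pos_iff.2 h0
  rw [h2, sub_self, zero_sub, h1] at h3
  have h5 : ‖((n + 1 : ℕ) : K)‖ * ‖π‖ ≤ max (‖((n + 1 : ℕ) : K)‖ * ‖π‖ ^ 2) (‖π‖ ^ (n + 1)) := by
    rw [← norm_mul, ← norm_neg, h3]
    refine IsUltrametricDist.norm_sum_le_of_forall_le_of_nonneg (by positivity) fun j hj => ?_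
    rw [norm_mul]
    by_cases e : j + 2 = n + 1
    · rw [e, Nat.choose_self, Nat.cast_one, norm_one, one_mul]
      exact (h _).trans (le_max_right _ _)
    · obtain ⟨d, hd⟩ := hp.dvd_choose_self (k := j + 2) (by omega)
        (by have := Finset.mem_range.1 hj; omega)
      refine le_trans (mul_le_mul ?_ ((h _).trans (pow_le_pow_of_le_one (norm_nonneg _) hπ.le
        (by omega))) (norm_nonneg _) (norm_nonneg _)) (le_max_left _ _)
      rw [hd, Nat.cast_mul, norm_mul]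
      exact mul_le_of_le_one_right (norm_nonneg _) (IsUltrametricDist.norm_natCast_le_one K _)
  rw [Nat.add_sub_cancel]
  rcases le_max_iff.1 h5 with h6 | h6
  · rw [sq, ← mul_assoc] at h6
    have h7 := le_of_mul_le_mul_right h6 h4
    have h8 : ‖((n + 1 : ℕ) : K)‖ ≤ 0 := by nlinarith [norm_nonneg ((n + 1 : ℕ) : K)]
    exact h8.trans (by positivity)
  · rw [pow_succ] at h6
    exact le_of_mul_le_mul_right h6 h4

end Pool.Agent.RT.CP
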