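import Pool.Agent.Lib.MP_33b3f9_ag.M8.CP.Art
import Pool.Agent.Lib.MP_e97e2b_nt.RT.CP.Sep
import Pool.Agent.Lib.MP_e97e2b_nt.RT.CP.Deg

/-!
Division of points.
-/

set_option autoImplicit false
set_option linter.unusedSectionVars false

namespace Pool.Agent.RT.CP

open Polynomial Filter RG.CP
open M8.CP (Uop artin)

namespace TC

variable {k : Type} [Field k] [IsAlgClosed k] {p : ℕ} [Fact p.Prime] [CharP k p] {gd : ℕ}
  {Vt W ι : Type} [AddCommGroup Vt] [Module ℚ Vt] [AddCommGroup W]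
  [Fintype ι] (D : TC k p gd Vt W ι)

theorem div_tf {N : ℕ} (hN : N ≠ 0) {x : Vt} (h : N • x = 0) : x = 0 := by
  rw [← Nat.cast_smul_eq_nsmul ℚ] at h
  exact (smul_eq_zero.1 h).resolve_left (Nat.cast_ne_zero.2 hN)

/-- `artin` for the maps `kp (trl (r a, 0))` of `lam_card` (distinct by `tau_eq_iff`), `kp_trl_nm`,
`deg_Fm` -/
theorem art {N : ℕ} (hN : ¬ p ∣ N) {c : D.KK}
    (h : ∀ x : Vt, N • x ∈ D.Lam → D.kp (trl (x, (0 : W))) c = c) : c ∈ D.Fm N := by
  classical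
  have h0 : N ≠ 0 := fun e => hN (e ▸ dvd_zero p)
  obtain ⟨r, h1, h2⟩ := D.lam_card N hN
  have := D.fin_Fm h0
  have hi : Function.Injective fun a => D.kp (trl (r a, (0 : W))) := fun a b e =>
    h2 a b ((D.tau_eq_iff (u := (r a, 0)) (v := (r b, 0))).1
      (AlgEquiv.ext fun x => DFunLike.congr_fun e x)).1
  refine artin (D.Fm N) (Finset.univ.image fun a => D.kp (trl (r a, (0 : W)))) ?_ ?_ c ?_
  · simp only [Finset.mem_image]
    rintro _ ⟨a, -, rfl⟩ _ ⟨x, rfl⟩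
    exact D.kp_trl_nm h0 (u := (r a, 0)) (h1 a) (by rw [smul_zero]; exact zero_mem _) x
  · rw [Finset.card_image_of_injective _ hi, D.deg_Fm h0]
    simp
  · simp only [Finset.mem_image]
    rintro _ ⟨a, -, rfl⟩
    exact h _ (h1 a)

/-- `nm N` is bijective; `a' = a ∘ (nm N)⁻¹`; `desc`, `quo_nm`, `art`, `Ka_add_fix`. -/
theorem div_N {N : ℕ} (hN : ¬ p ∣ N) {a : Vt × W →+ Vt × W} (ha : D.InA a)
    (h : ∀ x : Vt, N • x ∈ D.Lam → (a (x, 0)).1 ∈ D.Lam) (hz : ∀ x, (a (x, 0)).2 = 0) :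
    ∃ a', D.InA a' ∧ N • a' = a := by
  have h0 : N ≠ 0 := fun e => hN (e ▸ dvd_zero p)
  choose s hs using D.nsmul_surj h0
  have e : ∀ z, s (N • z) = z := fun z => by
    have h1 : N • (s (N • z) - z) = 0 := by rw [smul_sub, hs, sub_self]
    exact sub_eq_zero.1 (Prod.ext (div_tf h0 (congrArg Prod.fst h1))
      (D.W_nsmul_inj hN (congrArg Prod.snd h1)))
  refine ⟨a ∘ s, desc (D.good_nm h0) (D.quo_nm h0) ha (fun c hc => ?_)
    fun i z => congrArg (fun w => D.X i (a w)) (e z), funext fun z => ?_⟩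
  · exact D.art hN fun x hx => D.Ka_add_fix a (u := (x, 0)) (h x hx)
      (by rw [hz]; exact zero_mem _) hc
  · exact (map_nsmul a N (s z)).symm.trans (congrArg _ (hs z))

end TC

end Pool.Agent.RT.CP
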