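import Pool.Agent.Lib.MP_e97e2b_nt.RT.CP.Pow3
import Pool.Agent.Lib.MP_33b3f9_ag.M8.CP.Irr

/-!
The ring of sections is a domain.
-/

set_option autoImplicit false
set_option linter.unusedSectionVars false

namespace Pool.Agent.RT.CP

open Polynomial Filter RG.CP
open M8.CP (Uop irred_of_div)

namespace TC

variable {k : Type} [Field k] [IsAlgClosed k] {p : ℕ} [Fact p.Prime] [CharP k p] {gd : ℕ}
  {Vt W ι : Type} [AddCommGroup Vt] [Module ℚ Vt] [AddCommGroup W]
  [Fintype ι] (D : TC k p gd Vt W ι)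

/-- the homogeneous prime of a point -/
noncomputable def pt (z : Vt × W) : PrimeSpectrum (MvPolynomial ι k) :=
  ⟨RingHom.ker (MvPolynomial.aeval (fun i => Polynomial.C (D.X i z) * Polynomial.X) :
    MvPolynomial ι k →ₐ[k] k[X]), RingHom.ker_isPrime _⟩

/-- the Zariski topology -/
@[reducible] noncomputable def zar : TopologicalSpace (Vt × W) :=
  TopologicalSpace.induced D.pt inferInstance

/-- evaluation at the line of a point -/
noncomputable def domEv (z : Vt × W) : MvPolynomial ι k →ₐ[k] k[X] :=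
  MvPolynomial.aeval fun i => Polynomial.C (D.X i z) * Polynomial.X

theorem dom_mem_pt (z : Vt × W) (F : MvPolynomial ι k) :
    F ∈ (D.pt z).asIdeal ↔ D.domEv z F = 0 := RingHom.mem_ker

theorem dom_coeff (F : MvPolynomial ι k) (d : ℕ) : (fun z => (D.domEv z F).coeff d) ∈ D.G d := by
  induction F using MvPolynomial.induction_on generalizing d with
  | C a =>
    cases d with
    | zero =>
      have h : (fun z => (D.domEv z (MvPolynomial.C a)).coeff 0) = a • (1 : Vt × W → k) := by
        funext z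
        simp [domEv]
      rw [h]
      exact (D.G 0).smul_mem a D.one_mem
    | succ d =>
      have h : (fun z => (D.domEv z (MvPolynomial.C a)).coeff (d + 1)) = 0 := by
        funext z
        simp [domEv]
      rw [h]
      exact (D.G _).zero_mem
  | add F F' hF hF' =>
    have h : (fun z => (D.domEv z (F + F')).coeff d) =
        (fun z => (D.domEv z F).coeff d) + fun z => (D.domEv z F').coeff d := by
      funext z
      simp
    rw [h]
    exact (D.G d).add_mem (hF d) (hF' d)
  | mul_X F i hF =>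
    have e : ∀ z, D.domEv z (F * MvPolynomial.X i) =
        D.domEv z F * Polynomial.C (D.X i z) * Polynomial.X := fun z => by
      rw [map_mul, mul_assoc]
      simp [domEv]
    cases d with
    | zero =>
      have h : (fun z => (D.domEv z (F * MvPolynomial.X i)).coeff 0) = 0 := by
        funext z
        rw [e, Polynomial.coeff_mul_X_zero]
        rfl
      rw [h]
      exact (D.G _).zero_mem
    | succ d =>
      have h : (fun z => (D.domEv z (F * MvPolynomial.X i)).coeff (d + 1)) =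
          (fun z => (D.domEv z F).coeff d) * D.X i := by
        funext z
        rw [e, Polynomial.coeff_mul_X, Polynomial.coeff_mul_C]
        rfl
      rw [h]
      exact D.mul_mem d 1 _ _ (hF d) (D.X_mem i)

theorem dom_form1 {f : Vt × W → k} (hf : f ∈ D.G 1) :
    ∃ F, ∀ z, D.domEv z F = Polynomial.C (f z) * Polynomial.X := by
  rw [D.span] at hf
  induction hf using Submodule.span_induction with
  | mem x hx =>
    obtain ⟨i, rfl⟩ := hx
    exact ⟨MvPolynomial.X i, fun z => by simp [domEv]⟩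
  | zero => exact ⟨0, fun z => by simp⟩
  | add x y _ _ hx hy =>
    obtain ⟨F, hF⟩ := hx
    obtain ⟨F', hF'⟩ := hy
    exact ⟨F + F', fun z => by rw [map_add, hF, hF', Pi.add_apply, map_add, add_mul]⟩
  | smul c x _ hx =>
    obtain ⟨F, hF⟩ := hx
    exact ⟨c • F, fun z => by
      rw [map_smul, hF, Pi.smul_apply, smul_eq_mul, map_mul, mul_assoc, Polynomial.smul_eq_C_mul]⟩

theorem dom_form {d : ℕ} {f : Vt × W → k} (hf : f ∈ D.G 1 ^ d) :
    ∃ F, ∀ z, D.domEv z F = Polynomial.C (f z) * Polynomial.X ^ d := by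
  induction hf using Submodule.pow_induction_on_left' with
  | algebraMap r => exact ⟨MvPolynomial.C r, fun z => by simp [domEv]⟩
  | add x y i _ _ hx hy =>
    obtain ⟨F, hF⟩ := hx
    obtain ⟨F', hF'⟩ := hy
    exact ⟨F + F', fun z => by rw [map_add, hF, hF', Pi.add_apply, map_add, add_mul]⟩
  | mem_mul m hm i x _ hx =>
    obtain ⟨F, hF⟩ := hx
    obtain ⟨F', hF'⟩ := D.dom_form1 hm
    exact ⟨F' * F, fun z => by
      rw [map_mul, hF, hF', Pi.mul_apply, map_mul, pow_succ]
      ring⟩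

/-- `F ∈ pt z` iff all homogeneous components of `F` vanish at `X z`; a form of degree `d` in the
`X i` is an element of `G 1 ^ d ≤ G d`, and every element of `G 1 ^ d` is such a form; the zero set
of `f ∈ G n` is the common zero set of the `f * X i ^ (2 ^ s - n) ∈ G 1 ^ 2 ^ s`. -/
theorem isClosed_iff (Z : Set (Vt × W)) : @IsClosed _ D.zar Z ↔
    ∃ S : Set (Vt × W → k), (∀ f ∈ S, ∃ n, f ∈ D.G n) ∧ Z = {z | ∀ f ∈ S, f z = 0} := by
  let _ := D.zar
  rw [isClosed_induced_iff]
  constructor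
  · rintro ⟨t, ht, rfl⟩
    obtain ⟨s, rfl⟩ := (PrimeSpectrum.isClosed_iff_zeroLocus t).1 ht
    refine ⟨{f | ∃ F ∈ s, ∃ d, f = fun z => (D.domEv z F).coeff d}, ?_, ?_⟩
    · rintro _ ⟨F, -, d, rfl⟩
      exact ⟨d, D.dom_coeff F d⟩
    · ext z
      constructor
      · rintro hz _ ⟨F, hF, d, rfl⟩
        have h := (D.dom_mem_pt z F).1 (hz hF)
        simp [h]
      · intro hz F hF
        refine (D.dom_mem_pt z F).2 (Polynomial.ext fun d => ?_)
        exact hz _ ⟨F, hF, d, rfl⟩
  · rintro ⟨S, hS, rfl⟩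
    refine ⟨PrimeSpectrum.zeroLocus {F | ∀ z, (∀ f ∈ S, f z = 0) → D.domEv z F = 0},
      PrimeSpectrum.isClosed_zeroLocus _, ?_⟩
    ext z
    constructor
    · intro hz f hf
      obtain ⟨n, hn⟩ := hS f hf
      obtain ⟨i, hi⟩ := D.bpf z
      have h1 := D.mul_mem _ _ _ _ hn (D.pow_mem (D.X_mem i) (2 ^ n - n))
      have h2 : n + 1 * (2 ^ n - n) = 2 ^ n := by
        have := Nat.lt_two_pow_self (n := n)
        omega
      rw [h2, ← D.G_pow2] at h1
      obtain ⟨F, hF⟩ := D.dom_form h1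
      have h3 := (D.dom_mem_pt z F).1 (hz fun z' hz' => by
        rw [hF, Pi.mul_apply, hz' f hf, zero_mul, map_zero, zero_mul])
      rw [hF] at h3
      simpa [hi] using h3
    · intro hz F hF
      exact (D.dom_mem_pt z F).2 (hF z hz)

/-- `f (z + u) = 0 ↔ Uop (n * M) u (f ^ M) z = 0` (`exists_level`, `tr`, `U_pow`). -/
theorem continuous_add (u : Vt × W) : @Continuous _ _ D.zar D.zar fun z => z + u := by
  let _ := D.zar
  obtain ⟨M, hM, h1, h2⟩ := D.exists_level u
  refine continuous_iff_isClosed.2 fun Z hZ => ?_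
  obtain ⟨S, hS, rfl⟩ := (D.isClosed_iff Z).1 hZ
  have key : ∀ (n : ℕ) (f : Vt × W → k) (z : Vt × W),
      Uop D.eps (n * M) u (f ^ M) z = 0 ↔ f (z + u) = 0 := fun n f z => by
    have hM' : M ≠ 0 := by omega
    simp [Uop, D.eps_ne_zero, hM']
  refine (D.isClosed_iff _).2
    ⟨{g | ∃ f ∈ S, ∃ n, f ∈ D.G n ∧ g = Uop D.eps (n * M) u (f ^ M)}, ?_, ?_⟩
  · rintro _ ⟨f, -, n, hn, rfl⟩
    refine ⟨n * M, D.tr _ u ?_ ?_ _ (D.pow_mem hn M)⟩
    · rw [← mul_assoc, mul_smul]
      exact D.Lam.nsmul_mem h1 _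
    · rw [← mul_assoc, mul_smul, h2, smul_zero]
  · ext z
    constructor
    · rintro hz _ ⟨f, hf, n, -, rfl⟩
      exact (key n f z).2 (hz f hf)
    · intro hz f hf
      obtain ⟨n, hn⟩ := hS f hf
      exact (key n f z).1 (hz _ ⟨f, hf, n, hn, rfl⟩)

/-- `Topology.IsInducing.noetherianSpace`, `isPreirreducible_iff_isClosed_union_isClosed`. -/
theorem dom {n m : ℕ} {f g : Vt × W → k} (hf : f ∈ D.G n) (hg : g ∈ D.G m) (hf0 : f ≠ 0)
    (hg0 : g ≠ 0) : f * g ≠ 0 := by
  let _ := D.zar
  have hN : TopologicalSpace.NoetherianSpace (Vt × W) :=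
    Topology.IsInducing.noetherianSpace (i := D.pt) ⟨rfl⟩
  have hI := irred_of_div (A := Vt × W) D.continuous_add fun c hc z => D.nsmul_surj hc z
  have hcl : ∀ {n : ℕ} {f : Vt × W → k}, f ∈ D.G n → IsClosed {z | f z = 0} := fun {n f} hf =>
    (D.isClosed_iff _).2 ⟨{f}, fun g hg => ⟨n, hg ▸ hf⟩, by simp⟩
  intro h
  rcases isPreirreducible_iff_isClosed_union_isClosed.1
    (PreirreducibleSpace.isPreirreducible_univ (X := Vt × W)) _ _ (hcl hf) (hcl hg)
    (fun z _ => mul_eq_zero.1 (congrFun h z)) with h1 | h1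
  · exact hf0 (funext fun z => h1 (Set.mem_univ z))
  · exact hg0 (funext fun z => h1 (Set.mem_univ z))

end TC

end Pool.Agent.RT.CP
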