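import Pool.Agent.Lib.MP_e97e2b_nt.RT.G.RedC

/-!
Theta data with a place of good reduction.
-/

set_option autoImplicit false
set_option linter.unusedSectionVars false

namespace RG.B2

open M4 M4.B2

open Matrix Polynomial

noncomputable section

variable [Dim]

/-- Theta data with a good place above `P`. -/
structure Gd (P : Nat.Primes) (ι' : Type) [Fintype ι'] where
  D : TD0 ι'
  e : ℂ ≃+* PadicAlgCl P
  odd : P.1 ≠ 2
  good_cl : ∀ a b i j l m, ‖e (D.cl a b i j l m)‖ ≤ 1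
  good_cd : ∀ a b, ‖e (D.cd a b)‖ ≤ 1

variable {P : Nat.Primes} {ι' : Type} [Fintype ι']

/-- Let `N z` be the maximum of the `‖e (X i z)‖`. `law` at `a, i0, z, z` gives
`N (2 z) ≤ N z ^ 4`, `dup` gives `N z ^ 4 ≤ N (2 z)`; `N` is positive (`bpf`) and periodic
(`per'`), and `2 ^ i • z - 2 ^ j • z ∈ TA` for some `i < j` (`2 ^ i = 2 ^ j` modulo `N`,
`exists_nsmul_mem_TA`). -/
theorem Gd.bound (S : Gd P ι') (x : VA) :
    (∀ i, ‖S.e (S.D.X i x)‖ ≤ 1) ∧ ∃ i, ‖S.e (S.D.X i x)‖ = 1 := by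
  have h0 := fun z : VA => Finset.exists_max_image Finset.univ (fun i => ‖S.e (S.D.X i z)‖)
    ⟨S.D.i0, Finset.mem_univ _⟩
  choose m _ hm using h0
  obtain ⟨N, hN⟩ : ∃ N : VA → ℝ, ∀ z, N z = ‖S.e (S.D.X (m z) z)‖ := ⟨_, fun _ => rfl⟩
  have h1 : ∀ z i, ‖S.e (S.D.X i z)‖ ≤ N z := fun z i => hN z ▸ hm z i (Finset.mem_univ _)
  have h2 : ∀ z, 0 < N z := fun z => by
    obtain ⟨i, hi⟩ := S.D.bpf z
    exact (norm_pos_iff.2 ((_root_.map_ne_zero _).2 hi)).trans_le (h1 z i)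
  have h3 : ∀ z, N (z + z) = N z ^ 4 := fun z => by
    refine le_antisymm ?_ ?_
    · have h := S.D.law (m (z + z)) S.D.i0 z z
      rw [sub_self, S.D.X_zero, mul_one] at h
      have h4 : 0 ≤ N z ^ 4 := pow_nonneg (h2 z).le 4
      rw [hN, h]
      simp only [map_sum]
      refine IsUltrametricDist.norm_sum_le_of_forall_le_of_nonneg h4 fun i _ =>
        IsUltrametricDist.norm_sum_le_of_forall_le_of_nonneg h4 fun j _ =>
        IsUltrametricDist.norm_sum_le_of_forall_le_of_nonneg h4 fun l _ =>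
        IsUltrametricDist.norm_sum_le_of_forall_le_of_nonneg h4 fun n _ => ?_
      simp only [map_mul, norm_mul]
      have h5 := (h2 z).le
      calc _ ≤ 1 * (N z * N z) * (N z * N z) := by
            gcongr
            exacts [S.good_cl _ _ _ _ _ _, h1 _ _, h1 _ _, h1 _ _, h1 _ _]
        _ = _ := by ring
    · rw [hN z, ← norm_pow, ← map_pow, S.D.dup, map_sum]
      refine IsUltrametricDist.norm_sum_le_of_forall_le_of_nonneg (h2 _).le fun b _ => ?_
      rw [map_mul, norm_mul]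
      exact (mul_le_of_le_one_left (norm_nonneg _) (S.good_cd _ _)).trans (h1 _ _)
  have h4 : ∀ z, ∀ l ∈ TA, N (z + l) = N z := fun z l hl => by
    have h : ∀ i, ‖S.e (S.D.X i (z + l))‖ = ‖S.e (S.D.X i z)‖ := fun i => by
      rw [S.D.per' (S.D.X_mem i) hl, map_mul, norm_mul, norm_e_psi, one_mul]
    exact le_antisymm (by rw [hN, h]; exact h1 _ _) (by rw [hN z, ← h]; exact h1 _ _)
  have h5 : ∀ k : ℕ, N (2 ^ k • x) = N x ^ 4 ^ k := fun k => by
    induction k with
    | zero => simp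
    | succ k ih => rw [pow_succ', mul_smul, two_smul, h3, ih, ← pow_mul, pow_succ]
  have h6 : N x = 1 := by
    by_contra hx
    obtain ⟨M, hM, hMx⟩ := exists_nsmul_mem_TA x
    have : NeZero M := ⟨hM.ne'⟩
    have key : ∀ i j : ℕ, i < j → ((2 ^ i : ℕ) : ZMod M) = ((2 ^ j : ℕ) : ZMod M) → False := by
      intro i j hij h
      obtain ⟨c, hc⟩ := (Nat.modEq_iff_exists_eq_add
        (Nat.pow_le_pow_right two_pos hij.le)).1 ((ZMod.natCast_eq_natCast_iff _ _ _).1 h)
      have h7 := h5 j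
      rw [hc, add_smul, mul_comm, mul_smul, h4 _ _ (TA.nsmul_mem hMx c), h5] at h7
      exact hij.ne (Nat.pow_right_injective (by norm_num : 2 ≤ 4)
        (pow_right_injective₀ (h2 x) hx h7))
    obtain ⟨i, j, hij, h⟩ :=
      Finite.exists_ne_map_eq_of_infinite fun i : ℕ => ((2 ^ i : ℕ) : ZMod M)
    rcases lt_or_gt_of_ne hij with h' | h'
    exacts [key i j h' h, key j i h' h.symm]
  exact ⟨fun i => h6 ▸ h1 x i, m x, (hN x).symm.trans h6⟩

theorem Gd.intg_X (S : Gd P ι') (i : ι') : Intg S.e (S.D.X i) := fun x => (S.bound x).1 i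

variable (S : Gd P ι')

theorem Gd.X_mem (i : ι') : redF S.e (S.D.X i) ∈ GG S.D S.e 1 :=
  ⟨_, S.D.X_mem i, S.intg_X i, rfl⟩

theorem Gd.bpf (z : Vt P × WW P) : ∃ i, redF S.e (S.D.X i) z ≠ 0 := by
  obtain ⟨i, hi⟩ := (S.bound (lift z)).2
  exact ⟨i, fun h => hi.not_lt ((res_eq_zero hi.le).1 h)⟩

/-- The values of the coordinates in the valuation ring. -/
def Gd.redbX (i : ι') (x : VA) : OO P := ⟨S.e (S.D.X i x), mem_OO.2 (S.intg_X i x)⟩

theorem Gd.redb_X (i : ι') (x : VA) :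
    redF S.e (S.D.X i) (redbPr P x) = IsLocalRing.residue (OO P) (S.redbX i x) :=
  (redF_away S.D (S.D.X_mem i) (S.intg_X i) x).trans (res_coe (S.redbX i x))

theorem Gd.law (a b : ι') : ∃ c : ι' → ι' → ι' → ι' → kk P, ∀ z z',
    redF S.e (S.D.X a) (z + z') * redF S.e (S.D.X b) (z - z') =
      ∑ i, ∑ j, ∑ l, ∑ m, c i j l m * (redF S.e (S.D.X i) z * redF S.e (S.D.X j) z) *
        (redF S.e (S.D.X l) z' * redF S.e (S.D.X m) z') := by
  let c : ι' → ι' → ι' → ι' → OO P := fun i j l m =>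
    ⟨S.e (S.D.cl a b i j l m), mem_OO.2 (S.good_cl a b i j l m)⟩
  refine ⟨fun i j l m => IsLocalRing.residue (OO P) (c i j l m), fun z z' => ?_⟩
  have h1 : z - z' = redbPr P (lift z - lift z') := by rw [map_sub, redb_lift, redb_lift]
  rw [h1, ← redb_lift z, ← redb_lift z', ← map_add, redb_lift z, redb_lift z']
  conv_rhs => rw [← redb_lift z, ← redb_lift z']
  simp only [S.redb_X, ← map_mul, ← map_sum]
  congr 1
  refine Subtype.ext ?_
  have h := congrArg S.e (S.D.law a b (lift z) (lift z'))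
  simp only [map_mul, map_sum] at h
  simpa [Gd.redbX, c] using h

theorem Gd.dup (a : ι') : ∃ c : ι' → kk P, ∀ z,
    redF S.e (S.D.X a) z ^ 4 = ∑ b, c b * redF S.e (S.D.X b) (z + z) := by
  let c : ι' → OO P := fun b => ⟨S.e (S.D.cd a b), mem_OO.2 (S.good_cd a b)⟩
  refine ⟨fun b => IsLocalRing.residue (OO P) (c b), fun z => ?_⟩
  rw [← redb_lift z, ← map_add]
  simp only [S.redb_X, ← map_mul, ← map_sum, ← map_pow]
  congr 1
  refine Subtype.ext ?_
  have h := congrArg S.e (S.D.dup a (lift z))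
  simp only [map_mul, map_sum, map_pow] at h
  simpa [Gd.redbX, c] using h

end

end RG.B2
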