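import Pool.Agent.Lib.MP_e97e2b_nt.RT.CP.Ht1
import Pool.Agent.Lib.MP_e97e2b_nt.RT.CP.Div

/-!
The height as a quadratic form.
-/

set_option autoImplicit false
set_option linter.unusedSectionVars false

namespace Pool.Agent.RT.CP

open Polynomial Filter RG.CP
open M8.CP (Uop HtSys exists_htSys)

namespace TC

variable {k : Type} [Field k] [IsAlgClosed k] {p : ℕ} [Fact p.Prime] [CharP k p] {gd : ℕ}
  {Vt W ι : Type} [AddCommGroup Vt] [Module ℚ Vt] [AddCommGroup W]
  [Fintype ι] (D : TC k p gd Vt W ι)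

variable {D} (H : HtSys k D.KK) {a b : Vt × W → Vt × W}

theorem ht_zero : D.ht H 0 = 0 := by
  have h0 : D.InA 0 := D.inA_const 0
  have h := ht_rel H h0 h0 h0 h0 0 fun O hO => by
    rw [show D.qO O 0 = 1 from qO_const hO 0, pow_zero]
  simp only [Nat.cast_zero, zero_mul, add_zero] at h
  omega

/-- `ht_rel`, `isQuad` -/
theorem ht_par (ha : D.InA a) (hb : D.InA b) :
    D.ht H (a + b) + D.ht H (a - b) = 2 * D.ht H a + 2 * D.ht H b := by
  exact_mod_cast ht_rel H (ha.add_sub hb).1 (ha.add_sub hb).2 ha hb 2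
    fun O hO => (isQuad hO).par ⟨a, ha⟩ ⟨b, hb⟩

/-- `ht_rel` with two zero points -/
theorem ht_of_pow (ha : D.InA a) (hb : D.InA b) (n : ℕ)
    (h : ∀ O, D.Over O → D.qO O a = D.qO O b ^ n) : D.ht H a = n * D.ht H b := by
  have h0 : D.InA 0 := D.inA_const 0
  have h1 := ht_rel H ha h0 hb h0 n fun O hO => by
    rw [show D.qO O 0 = 1 from qO_const hO 0, h O hO, one_pow]
  rwa [ht_zero, add_zero, mul_zero, add_zero] at h1

theorem ht_nsmul (ha : D.InA a) (n : ℕ) : D.ht H (n • a) = n ^ 2 * D.ht H a := by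
  exact_mod_cast ht_of_pow H (D.mem_AA.1 (D.AA.nsmul_mem (D.mem_AA.2 ha) n)) ha (n ^ 2)
    fun O hO => (isQuad hO).nsmul n ⟨a, ha⟩

end TC

end Pool.Agent.RT.CP
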