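import Pool.Agent.Lib.MP_e97e2b_nt.RT.CP.Sy

/-!
Tangent vectors at the origin: an eigenvalue of an automorphism on the tangent space is a root of
every polynomial that kills the automorphism.
-/

set_option autoImplicit false
set_option linter.unusedSectionVars false

namespace Pool.Agent.RT.CP

open Polynomial

namespace TC

variable {k : Type} [Field k] [IsAlgClosed k] {p : ℕ} [Fact p.Prime] [CharP k p] {gd : ℕ}
  {Vt W ι : Type} [AddCommGroup Vt] [Module ℚ Vt] [AddCommGroup W]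
  [Fintype ι] (D : TC k p gd Vt W ι)

/-- A derivation at the origin. -/
structure Der where
  i0 : ι
  d : ℕ → (Vt × W → k) → k
  one : D.X i0 0 = 1
  add : ∀ n, ∀ f ∈ D.G n, ∀ g ∈ D.G n, d n (f + g) = d n f + d n g
  smul : ∀ n (c : k), ∀ f ∈ D.G n, d n (c • f) = c * d n f
  mul : ∀ n m, ∀ f ∈ D.G n, ∀ g ∈ D.G m, d (n + m) (f * g) = d n f * g 0 + f 0 * d m g

variable {D} (E : D.Der)

namespace Der

theorem d_one : E.d 0 1 = 0 := by
  have h := E.mul 0 0 1 D.one_mem 1 D.one_mem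
  simpa using h

theorem d_sum {α : Type} [Fintype α] {n : ℕ} {f : α → Vt × W → k} (hf : ∀ a, f a ∈ D.G n) :
    E.d n (∑ a, f a) = ∑ a, E.d n (f a) := by
  classical
  have h : ∀ s : Finset α, E.d n (∑ a ∈ s, f a) = ∑ a ∈ s, E.d n (f a) := fun s => by
    induction s using Finset.induction_on with
    | empty => simpa using E.smul n 0 0 (zero_mem _)
    | insert a s ha ih =>
      rw [Finset.sum_insert ha, Finset.sum_insert ha,
        E.add n _ (hf a) _ (sum_mem fun a _ => hf a), ih]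
  exact h _

/-- `v` is the image of the tangent vector under the map `a`. -/
def Tan (a : Vt × W → Vt × W) (v : ι → k) : Prop :=
  a 0 = 0 ∧ v E.i0 = 0 ∧ ∃ (n : ℕ) (f : ι → Vt × W → k) (μ : Vt × W → k) (c : k),
    (∀ i, f i ∈ D.G n) ∧ (∀ i z, f i z = μ z * D.X i (a z)) ∧ μ 0 = 1 ∧
      ∀ i, E.d n (f i) = v i + c * D.X i 0

variable {E} {a b : Vt × W → Vt × W} {v w : ι → k}

theorem Tan.uniq (h : E.Tan a v) (h' : E.Tan a w) : v = w := by
  obtain ⟨h0, h1, n, f, μ, c, hf, e, hμ, hd⟩ := h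
  obtain ⟨-, h1', n', f', μ', c', hf', e', hμ', hd'⟩ := h'
  funext i
  have h2 : f i * f' E.i0 = f E.i0 * f' i := funext fun z => by
    simp only [Pi.mul_apply, e, e']
    ring
  have h3 := E.mul n n' _ (hf i) _ (hf' E.i0)
  rw [h2, E.mul n n' _ (hf E.i0) _ (hf' i)] at h3
  simp only [e, e', hd, hd', h0, hμ, hμ', h1, h1', E.one] at h3
  linear_combination -h3

theorem tan_const (h0 : a 0 = 0) (h : ∀ i z, D.X i (a z) = D.X i 0) : E.Tan a 0 :=
  ⟨h0, rfl, 0, fun i => D.X i 0 • 1, 1, 0, fun _ => Submodule.smul_mem _ _ D.one_mem,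
    fun i z => by simp [h], rfl, fun i => by rw [E.smul 0 _ _ D.one_mem, E.d_one]; simp⟩

theorem Tan.lin (h : E.Tan a v) {σ : Vt × W → Vt × W} (h0 : σ 0 = 0) {c : ι → ι → k}
    (hc : ∀ i z, D.X i (σ z) = ∑ j, c i j * D.X j z) :
    E.Tan (σ ∘ a) fun i => ∑ j, c i j * v j - (∑ j, c E.i0 j * v j) * D.X i 0 := by
  obtain ⟨h1, -, n, f, μ, c', hf, e, hμ, hd⟩ := h
  refine ⟨by rw [Function.comp_apply, h1, h0], by simp [E.one], n, fun i => ∑ j, c i j • f j, μ,
    c' + ∑ j, c E.i0 j * v j, fun i => sum_mem fun j _ => Submodule.smul_mem _ _ (hf j),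
    fun i z => ?_, hμ, fun i => ?_⟩
  · simp only [Finset.sum_apply, Pi.smul_apply, smul_eq_mul, e, Function.comp_apply, hc,
      Finset.mul_sum]
    exact Finset.sum_congr rfl fun _ _ => by ring
  · have h2 := hc i 0
    rw [h0] at h2
    rw [E.d_sum fun j => Submodule.smul_mem _ _ (hf j)]
    simp only [fun j => E.smul n (c i j) _ (hf j), hd, mul_add, Finset.sum_add_distrib]
    rw [Finset.sum_congr rfl fun j _ => mul_left_comm (c i j) c' (D.X j 0), ← Finset.mul_sum, ← h2]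
    ring

variable (E) in
theorem exists_lin : ∃ L L' : (ι → k) → ι → k, L 0 = 0 ∧ L' 0 = 0 ∧ ∀ a b v w, E.Tan a v →
    E.Tan b w → E.Tan (a + b) (L v + L' w) := by
  choose c hc using fun i => D.law i E.i0
  let A : (ι → k) → ι → k := fun v i => ∑ j, ∑ l, ∑ m, ∑ o,
    c i j l m o * ((v j * D.X l 0 + D.X j 0 * v l) * (D.X m 0 * D.X o 0))
  let B : (ι → k) → ι → k := fun v i => ∑ j, ∑ l, ∑ m, ∑ o,
    c i j l m o * ((D.X j 0 * D.X l 0) * (v m * D.X o 0 + D.X m 0 * v o))
  refine ⟨fun v i => A v i - A v E.i0 * D.X i 0, fun v i => B v i - B v E.i0 * D.X i 0,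
    funext fun i => by simp [A], funext fun i => by simp [B], ?_⟩
  rintro a b v w ⟨h0, -, n, f, μ, e, hf, h1, hμ, hd⟩ ⟨h0', -, n', f', μ', e', hf', h1', hμ', hd'⟩
  have hm : ∀ i j l m o, c i j l m o • ((f j * f l) * (f' m * f' o)) ∈ D.G (n + n + (n' + n')) :=
    fun i j l m o => Submodule.smul_mem _ _ (D.mul_mem _ _ _ _ (D.mul_mem _ _ _ _ (hf j) (hf l))
      (D.mul_mem _ _ _ _ (hf' m) (hf' o)))
  refine ⟨by rw [Pi.add_apply, h0, h0', add_zero], by simp [E.one], n + n + (n' + n'),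
    fun i => ∑ j, ∑ l, ∑ m, ∑ o, c i j l m o • ((f j * f l) * (f' m * f' o)),
    fun z => μ z ^ 2 * μ' z ^ 2 * D.X E.i0 (a z - b z),
    2 * (e + e') + A v E.i0 + B w E.i0,
    fun i => sum_mem fun j _ => sum_mem fun l _ => sum_mem fun m _ => sum_mem fun o _ =>
      hm i j l m o, fun i z => ?_, by simp [h0, h0', hμ, hμ', E.one], fun i => ?_⟩
  · rw [mul_assoc, mul_comm (D.X E.i0 _), Pi.add_apply, hc]
    simp only [Finset.sum_apply, Pi.smul_apply, Pi.mul_apply, smul_eq_mul, h1, h1', Finset.mul_sum]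
    exact Finset.sum_congr rfl fun _ _ => Finset.sum_congr rfl fun _ _ =>
      Finset.sum_congr rfl fun _ _ => Finset.sum_congr rfl fun _ _ => by ring
  · have h2 := hc i 0 0
    rw [add_zero, sub_zero, E.one, mul_one] at h2
    have h3 : E.d (n + n + (n' + n'))
        (∑ j, ∑ l, ∑ m, ∑ o, c i j l m o • ((f j * f l) * (f' m * f' o))) =
        A v i + B w i + 2 * (e + e') * D.X i 0 := by
      rw [E.d_sum fun j => sum_mem fun l _ => sum_mem fun m _ => sum_mem fun o _ => hm i j l m o]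
      conv_rhs => rw [h2]
      simp only [A, B, Finset.mul_sum, ← Finset.sum_add_distrib]
      refine Finset.sum_congr rfl fun j _ => ?_
      rw [E.d_sum fun l => sum_mem fun m _ => sum_mem fun o _ => hm i j l m o]
      refine Finset.sum_congr rfl fun l _ => ?_
      rw [E.d_sum fun m => sum_mem fun o _ => hm i j l m o]
      refine Finset.sum_congr rfl fun m _ => ?_
      rw [E.d_sum fun o => hm i j l m o]
      refine Finset.sum_congr rfl fun o _ => ?_
      have h4 := D.mul_mem _ _ _ _ (hf j) (hf l)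
      have h5 := D.mul_mem _ _ _ _ (hf' m) (hf' o)
      rw [E.smul _ _ _ (D.mul_mem _ _ _ _ h4 h5), E.mul _ _ _ h4 _ h5, E.mul _ _ _ (hf j) _ (hf l),
        E.mul _ _ _ (hf' m) _ (hf' o)]
      simp only [Pi.mul_apply, h1, h1', hd, hd', h0, h0', hμ, hμ']
      ring
    rw [h3, Pi.add_apply]
    ring

theorem Tan.add (h : E.Tan a v) (h' : E.Tan b w) : E.Tan (a + b) (v + w) := by
  obtain ⟨L, L', h1, h2, H⟩ := E.exists_lin
  have h0 : E.Tan 0 0 := tan_const rfl fun _ _ => rfl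
  have h3 := H _ _ _ _ h h0
  have h4 := H _ _ _ _ h0 h'
  rw [add_zero, h2, add_zero] at h3
  rw [zero_add, h1, zero_add] at h4
  have h5 := H _ _ _ _ h h'
  rwa [h3.uniq h, h4.uniq h'] at h5

theorem Tan.neg (h : E.Tan a v) : E.Tan (-a) (-v) := by
  have h1 : ∀ i, ∃ c : ι → k, ∀ z, D.X i (-z) = ∑ j, c j * D.X j z := fun i => by
    have h2 := D.mul 1 (-1) _ (D.X_mem i)
    rw [show 1 * (-1 : ℤ).natAbs ^ 2 = 1 from rfl, D.span,
      Submodule.mem_span_range_iff_exists_fun] at h2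
    obtain ⟨c, hc⟩ := h2
    exact ⟨c, fun z => by simpa using (congrFun hc z).symm⟩
  choose c hc using h1
  have h2 := h.lin (σ := fun z => -z) neg_zero hc
  have h3 := h.add h2
  rw [show a + (fun z => -z) ∘ a = 0 from add_neg_cancel a] at h3
  rw [neg_eq_of_add_eq_zero_right (h3.uniq (tan_const rfl fun _ _ => rfl))]
  exact h2

theorem Tan.zsmul (h : E.Tan a v) (c : ℤ) : E.Tan (c • a) (c • v) := by
  let H : AddSubgroup ((Vt × W → Vt × W) × (ι → k)) :=
    { carrier := {x | E.Tan x.1 x.2}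
      zero_mem' := tan_const rfl fun _ _ => rfl
      add_mem' := Tan.add
      neg_mem' := Tan.neg }
  exact H.zsmul_mem (x := (a, v)) h c

variable (E)

theorem lie (s : D.Sy 1) {ξ c : k} (h0 : E.d 1 (D.X E.i0) = 0)
    (hs : ∀ i, E.d 1 (D.X i ∘ s.sg) = ξ * E.d 1 (D.X i) + c * D.X i 0) {a : ℤ[X]}
    (ha : aeval s.sV a = 0) (i : ι) : aeval ξ a * E.d 1 (D.X i) = 0 := by
  have h1 : E.Tan id fun i => E.d 1 (D.X i) :=
    ⟨rfl, h0, 1, D.X, 1, 0, D.X_mem, fun i z => by simp, rfl, fun i => by simp⟩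
  choose m hm using s.fw
  simp only [pow_one] at hm
  have h2 : ∀ i, ∑ j, m i j * E.d 1 (D.X j) = ξ * E.d 1 (D.X i) + c * D.X i 0 := fun i => by
    have h3 : D.X i ∘ s.sg = ∑ j, m i j • D.X j := funext fun z => by
      rw [Finset.sum_apply]
      exact hm i z
    rw [← hs, h3, E.d_sum fun j => Submodule.smul_mem _ _ (D.X_mem j)]
    exact Finset.sum_congr rfl fun j _ => (E.smul 1 _ _ (D.X_mem j)).symm
  have h3 : ∀ a : ℤ[X], E.Tan (s.pol a) fun i => aeval ξ a * E.d 1 (D.X i) := fun a => by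
    induction a using Polynomial.induction_on with
    | C c =>
      rw [s.pol_C]
      refine (congrArg _ (_root_.funext fun i => ?_)).mp (h1.zsmul c)
      simp
    | add a b ha hb =>
      rw [s.pol_add]
      refine (congrArg _ (_root_.funext fun i => ?_)).mp (ha.add hb)
      simp only [map_add, add_mul, Pi.add_apply]
    | monomial n e ih =>
      rw [pow_succ', mul_left_comm, s.pol_X_mul]
      have h4 := ih.lin (σ := s.sg) (Prod.ext (map_zero s.sV) (map_zero s.sW)) hm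
      simp only [mul_left_comm (m _ _), ← Finset.mul_sum, h2, h0, E.one] at h4
      refine (congrArg _ (_root_.funext fun i => ?_)).mp h4
      rw [map_mul (aeval ξ) Polynomial.X, aeval_X]
      ring
  refine congrFun ((h3 a).uniq (tan_const (map_zero _) fun i z => ?_)) i
  have h4 := s.ker ha z.2 1 _ (D.X_mem i) 0
  rw [zero_add] at h4
  rw [s.pol_apply, ha]
  exact h4

end Der

end TC

end Pool.Agent.RT.CP
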