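import Pool.Agent.Lib.MP_e97e2b_nt.RT.CP.Sym

/-!
Integral sections are Lipschitz functions of the coordinates.
-/

set_option autoImplicit false
set_option linter.unusedSectionVars false

namespace RG.B2

open M4 M4.B2

open Matrix Polynomial

noncomputable section

variable [Dim]

variable {P : Nat.Primes} {ι' : Type} [Fintype ι'] (S : Gd P ι')

theorem Gd.exists_basis {n : ℕ} (hn : ¬ P.1 ∣ n) (M : Set (VA → ℂ))
    (hM : ∀ f ∈ M, f ∈ S.D.Γ n ∧ Intg S.e f)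
    (hs : GG S.D S.e n ≤ Submodule.span (kk P) (redF S.e '' M)) :
    ∃ (α : Type) (_ : Fintype α) (b : α → VA → ℂ), (∀ a, b a ∈ M) ∧
      LinearIndependent (kk P) (fun a => redF S.e (b a)) ∧
      ∀ f ∈ S.D.Γ n, ∃ c : α → ℂ, ∑ a, c a • b a = f := by
  classical
  obtain ⟨B, hB, h1, h2⟩ := exists_linearIndependent (kk P) (redF S.e '' M)
  choose b hb he using fun a : B => hB a.2
  have hG : ∀ a : B, (a : Vt P × WW P → kk P) ∈ GG S.D S.e n := fun a =>
    ⟨b a, (hM _ (hb a)).1, (hM _ (hb a)).2, he a⟩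
  have := S.fin n
  have h3 : LinearIndependent (kk P) fun a : B => (⟨a, hG a⟩ : GG S.D S.e n) :=
    LinearIndependent.of_comp (GG S.D S.e n).subtype h2
  have : Finite B := h3.finite
  have : Fintype B := Fintype.ofFinite B
  have h4 : LinearIndependent (kk P) fun a => redF S.e (b a) := by
    rw [funext he]
    exact h2
  have h5 : (4 * n) ^ Fintype.card ι ≤ Fintype.card B := by
    rw [← S.dim_eq n hn, ← Set.toFinset_card]
    rw [← h1] at hs
    have : FiniteDimensional (kk P) (Submodule.span (kk P) B) :=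
      FiniteDimensional.span_of_finite _ (Set.toFinite B)
    exact (Submodule.finrank_mono hs).trans (finrank_span_le_card B)
  have := S.D.fin n (redC_pos hn)
  have h6 : LinearIndependent ℂ fun a => (⟨b a, (hM _ (hb a)).1⟩ : S.D.Γ n) :=
    LinearIndependent.of_comp (S.D.Γ n).subtype
      (linearIndependent_of_redF S.e (fun a => (hM _ (hb a)).2) h4)
  refine ⟨B, inferInstance, b, hb, h4, fun f hf => ?_⟩
  have h7 : (⟨f, hf⟩ : S.D.Γ n) ∈ Submodule.span ℂ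
      (Set.range fun a => (⟨b a, (hM _ (hb a)).1⟩ : S.D.Γ n)) := by
    rw [h6.span_eq_top_of_card_eq_finrank' (le_antisymm h6.fintype_card_le_finrank
      ((S.D.dim_le n (redC_pos hn)).trans h5))]
    trivial
  obtain ⟨c, hc⟩ := (Submodule.mem_span_range_iff_exists_fun _).1 h7
  exact ⟨c, by simpa using congrArg Subtype.val hc⟩

theorem exists_max (e : ℂ ≃+* PadicAlgCl P) {α : Type} [Fintype α] {b : α → VA → ℂ}
    (hi : ∀ a, Intg e (b a)) (h : LinearIndependent (kk P) fun a => redF e (b a)) (c : α → ℂ) :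
    ∃ z : Vt P × WW P, ∀ a, ‖e (c a)‖ ≤ ‖e ((∑ a, c a • b a) (lift z))‖ := by
  by_contra hc
  push Not at hc
  obtain ⟨a0, -⟩ := hc 0
  have : Nonempty α := ⟨a0⟩
  obtain ⟨a1, h1⟩ := Finite.exists_max fun a => ‖e (c a)‖
  have h2 : ∀ z : Vt P × WW P, ‖e ((∑ a, c a • b a) (lift z))‖ < ‖e (c a1)‖ := fun z => by
    obtain ⟨a, ha⟩ := hc z
    exact ha.trans_le (h1 a)
  have hp : 0 < ‖e (c a1)‖ := (norm_nonneg _).trans_lt (h2 0)
  have hne : c a1 ≠ 0 := (map_ne_zero e).1 (norm_pos_iff.1 hp)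
  have hd : ∀ a, ‖e (c a / c a1)‖ ≤ 1 := fun a => by
    rw [map_div₀, norm_div]
    exact (div_le_one hp).2 (h1 a)
  have h3 := Fintype.linearIndependent_iff.1 h (fun a => res (e (c a / c a1))) (funext fun z => by
    have h4 : ‖∑ a, e (c a / c a1) * e (b a (lift z))‖ < 1 := by
      have h5 := (div_lt_one hp).2 (h2 z)
      rw [← norm_div, ← map_div₀, Finset.sum_apply, Finset.sum_div, map_sum] at h5
      simpa only [Pi.smul_apply, smul_eq_mul, mul_div_right_comm, map_mul] using h5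
    have h5 := (res_eq_zero h4.le).2 h4
    rw [res_sum _ fun a _ => by
      rw [norm_mul]
      exact mul_le_one₀ (hd a) (norm_nonneg _) (hi a _)] at h5
    rw [Finset.sum_apply, Pi.zero_apply, ← h5]
    exact Finset.sum_congr rfl fun a _ => (res_mul (hd a) (hi a _)).symm) a1
  simp [div_self hne] at h3

/-- The variation of a section between the origin and `u`. -/
def Gd.dd (u : VA) (n : ℕ) (f : VA → ℂ) : PadicAlgCl P :=
  S.e (f u) / S.e (S.D.X S.D.i0 u) ^ n - S.e (f 0)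

variable {u : VA} {n m : ℕ} {f g : VA → ℂ} {r : ℝ}

theorem Gd.dd_add (u : VA) (n : ℕ) (f g : VA → ℂ) :
    S.dd u n (f + g) = S.dd u n f + S.dd u n g := by
  simp only [Gd.dd, Pi.add_apply, map_add]
  ring

theorem Gd.dd_smul (u : VA) (n : ℕ) (c : ℂ) (f : VA → ℂ) :
    S.dd u n (c • f) = S.e c * S.dd u n f := by
  simp only [Gd.dd, Pi.smul_apply, smul_eq_mul, map_mul]
  ring

theorem Gd.dd_sum {α : Type} [Fintype α] (u : VA) (n : ℕ) (c : α → ℂ) (b : α → VA → ℂ) :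
    S.dd u n (∑ a, c a • b a) = ∑ a, S.e (c a) * S.dd u n (b a) := by
  simp only [Gd.dd, Finset.sum_apply, Pi.smul_apply, smul_eq_mul, map_sum, map_mul, mul_sub,
    Finset.sum_sub_distrib, Finset.sum_div, mul_div_assoc]

theorem Gd.dd_mul (u : VA) (n m : ℕ) (f g : VA → ℂ) : S.dd u (n + m) (f * g) =
    S.dd u n f * (S.dd u m g + S.e (g 0)) + S.e (f 0) * S.dd u m g := by
  simp only [Gd.dd, Pi.mul_apply, map_mul, pow_add, ← div_mul_div_comm]
  ring

theorem Gd.dd_le (hu : ‖S.e (S.D.X S.D.i0 u)‖ = 1) (hg : Intg S.e g) (m : ℕ) :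
    ‖S.dd u m g + S.e (g 0)‖ ≤ 1 := by
  rw [Gd.dd, sub_add_cancel, norm_div, norm_pow, hu, one_pow, div_one]
  exact hg u

theorem Gd.span_lip (hu : ‖S.e (S.D.X S.D.i0 u)‖ = 1) (hr : ∀ i, ‖S.dd u 1 (S.D.X i)‖ ≤ r)
    (m : ℕ) : GG S.D S.e 1 ^ m ≤ Submodule.span (kk P)
      (redF S.e '' {f | (f ∈ S.D.Γ m ∧ Intg S.e f) ∧ ‖S.dd u m f‖ ≤ r}) := by
  have h0 : 0 ≤ r := (norm_nonneg _).trans (hr S.D.i0)
  induction m with
  | zero =>
    rw [pow_zero, Submodule.one_eq_span]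
    refine Submodule.span_mono (Set.singleton_subset_iff.2
      ⟨1, ⟨⟨S.D.one_mem, Intg.one⟩, ?_⟩, redF_one⟩)
    simpa [Gd.dd] using h0
  | succ m ih =>
    rw [pow_succ]
    refine (mul_le_mul' ih S.span.le).trans ?_
    rw [Submodule.span_mul_span]
    refine Submodule.span_mono ?_
    rintro _ ⟨_, ⟨f, ⟨⟨hf, hi⟩, h1⟩, rfl⟩, _, ⟨i, rfl⟩, rfl⟩
    refine ⟨f * S.D.X i, ⟨⟨S.D.mul_mem _ _ _ _ hf (S.D.X_mem i), hi.mul (S.intg_X i)⟩, ?_⟩,
      redF_mul hi (S.intg_X i)⟩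
    rw [S.dd_mul]
    refine (IsUltrametricDist.norm_add_le_max _ _).trans (max_le ?_ ?_)
    · rw [norm_mul]
      exact (mul_le_of_le_one_right (norm_nonneg _) (S.dd_le hu (S.intg_X i) 1)).trans h1
    · rw [norm_mul]
      exact (mul_le_of_le_one_left (norm_nonneg _) (hi 0)).trans (hr i)

/-- The Lipschitz bound. -/
theorem Gd.lip (hu : ‖S.e (S.D.X S.D.i0 u)‖ = 1) (hr : ∀ i, ‖S.dd u 1 (S.D.X i)‖ ≤ r)
    (hf : f ∈ S.D.Γ n) : ∃ z : Vt P × WW P, ‖S.dd u n f‖ ≤ ‖S.e (f (lift z))‖ * r := by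
  have h0 : 0 ≤ r := (norm_nonneg _).trans (hr S.D.i0)
  obtain ⟨d, hd⟩ := Nat.exists_eq_add_of_le (Nat.lt_two_pow_self (n := n)).le
  obtain ⟨α, _, b, h1, h2, h3⟩ := S.exists_basis (S.toTC.not_dvd_two_pow n) _ (fun f hf => hf.1)
    (S.toTC.G_pow2 n ▸ S.span_lip hu hr (2 ^ n))
  have h4 := S.D.mul_mem _ _ _ _ hf (S.D.pow_mem (S.D.X_mem S.D.i0) d)
  rw [one_mul, ← hd] at h4
  obtain ⟨c, hc⟩ := h3 _ h4
  obtain ⟨z, hz⟩ := exists_max S.e (fun a => (h1 a).1.2) h2 c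
  have h5 : S.e (S.D.X S.D.i0 u) ≠ 0 := norm_pos_iff.1 (by rw [hu]; exact one_pos)
  have h6 : S.dd u n f = S.dd u (2 ^ n) (f * S.D.X S.D.i0 ^ d) := by
    simp only [Gd.dd, Pi.mul_apply, Pi.pow_apply, map_mul, map_pow, S.D.X_zero, hd, pow_add,
      map_one, one_pow, mul_one]
    rw [mul_div_mul_right _ _ (pow_ne_zero _ h5)]
  refine ⟨z, ?_⟩
  rw [h6, ← hc, S.dd_sum]
  refine IsUltrametricDist.norm_sum_le_of_forall_le_of_nonneg (by positivity) fun a _ => ?_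
  rw [norm_mul]
  refine mul_le_mul ((hz a).trans ?_) (h1 a).2 (norm_nonneg _) (norm_nonneg _)
  rw [hc, Pi.mul_apply, Pi.pow_apply, map_mul, map_pow, norm_mul, norm_pow]
  exact mul_le_of_le_one_right (norm_nonneg _)
    (pow_le_one₀ (norm_nonneg _) (S.intg_X S.D.i0 _))

end

end RG.B2
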