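import Pool.Agent.Lib.MP_e97e2b_nt.RT.CP.Ht2

/-!
The height on the polynomials in a symmetry.
-/

set_option autoImplicit false
set_option linter.unusedSectionVars false

namespace Pool.Agent.RT.CP

open Polynomial Filter RG.CP
open M8.CP (Uop HtSys exists_htSys)

namespace TC

variable {k : Type} [Field k] [IsAlgClosed k] {p : ℕ} [Fact p.Prime] [CharP k p] {gd : ℕ}
  {Vt W ι : Type} [AddCommGroup Vt] [Module ℚ Vt] [AddCommGroup W]
  [Fintype ι] {D : TC k p gd Vt W ι} {q : ℕ} (s : D.Sy q)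

namespace Sy

/-- the symmetry on the product -/
def sg : Vt × W → Vt × W := fun z => (s.sV z.1, s.sW z.2)

/-- a polynomial in the symmetry -/
noncomputable def pol (a : ℤ[X]) : Vt × W →+ Vt × W :=
  (aeval s.sV a).toAddMonoidHom.prodMap (aeval s.sW a).toAddMonoidHom

theorem pol_apply (a : ℤ[X]) (z : Vt × W) : s.pol a z = (aeval s.sV a z.1, aeval s.sW a z.2) := rfl

theorem pol_add (a b : ℤ[X]) : (s.pol (a + b) : Vt × W → Vt × W) = ⇑(s.pol a) + ⇑(s.pol b) := by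
  funext z
  simp only [pol_apply, map_add]
  rfl

theorem pol_sub (a b : ℤ[X]) : (s.pol (a - b) : Vt × W → Vt × W) = ⇑(s.pol a) - ⇑(s.pol b) := by
  funext z
  simp only [pol_apply, map_sub]
  rfl

theorem pol_X_mul (a : ℤ[X]) : (s.pol (Polynomial.X * a) : Vt × W → Vt × W) = s.sg ∘ s.pol a := by
  funext z
  simp only [pol_apply, map_mul, aeval_X]
  rfl

theorem pol_C (c : ℤ) : (s.pol (Polynomial.C c) : Vt × W → Vt × W) = c • id := by
  funext z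
  simp only [pol_apply, aeval_C, Module.algebraMap_end_apply]
  rfl

theorem pol_vt (a : ℤ[X]) (x : Vt) : (s.pol a (x, 0)).2 = 0 := map_zero (aeval s.sW a)

theorem fw_gm (A : Subalgebra k D.KK) {a : Vt × W → Vt × W} {u : D.FF}
    (ha : ∀ i, ∃ c ∈ A, D.gm (D.X i ∘ a) = D.val c * u) (i : ι) :
    ∃ e ∈ A, D.gm (D.X i ∘ (s.sg ∘ a)) = D.val e * u ^ q := by
  choose c hc hca using ha
  obtain ⟨e, he⟩ := s.fw i
  have h1 : D.X i ∘ (s.sg ∘ a) = ∑ j, e j • (D.X j ∘ a) ^ q := by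
    funext z
    simp only [Finset.sum_apply, Pi.smul_apply, Pi.pow_apply, Function.comp_apply, smul_eq_mul,
      sg, he]
  refine ⟨∑ j, e j • c j ^ q, A.sum_mem fun _ _ => A.smul_mem (A.pow_mem (hc _) _) _, ?_⟩
  rw [h1]
  simp only [map_sum, map_smul, map_pow, Finset.sum_mul, smul_mul_assoc, hca, mul_pow]

theorem bw_gm (A : Subalgebra k D.KK) {a : Vt × W → Vt × W} {u : D.FF}
    (ha : ∀ i, ∃ c ∈ A, D.gm (D.X i ∘ (s.sg ∘ a)) = D.val c * u) (j : ι) :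
    ∃ e ∈ A, D.gm (D.X j ∘ a) ^ q = D.val e * u := by
  choose c hc hca using ha
  obtain ⟨e, he⟩ := s.bw j
  have h1 : (D.X j ∘ a) ^ q = ∑ i, e i • (D.X i ∘ (s.sg ∘ a)) := by
    funext z
    simp only [Finset.sum_apply, Pi.smul_apply, Pi.pow_apply, Function.comp_apply, smul_eq_mul,
      sg, he]
  refine ⟨∑ i, e i • c i, A.sum_mem fun _ _ => A.smul_mem (hc _) _, ?_⟩
  rw [← map_pow, h1]
  simp only [map_sum, map_smul, Finset.sum_mul, smul_mul_assoc, hca]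

theorem inA_sg {a : Vt × W → Vt × W} (ha : D.InA a) : D.InA (s.sg ∘ a) := by
  obtain ⟨u, hu, ha⟩ := ha
  exact ⟨u ^ q, hu.pow q, fun i => (s.fw_gm ⊤
    (fun i => (ha i).imp fun _ h => ⟨Algebra.mem_top, h⟩) i).imp fun _ h => h.2⟩

theorem inA_pol (a : ℤ[X]) : D.InA (s.pol a) := by
  induction a using Polynomial.induction_on with
  | C c =>
    rw [pol_C]
    exact D.AA.zsmul_mem (x := id) D.inA_id c
  | add a b ha hb =>
    rw [pol_add]
    exact (ha.add_sub hb).1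
  | monomial n c ih =>
    rw [pow_succ', mul_left_comm, pol_X_mul]
    exact s.inA_sg ih

theorem qO_sg {O : ValuationSubring D.KK} (hO : D.Over O) {a : Vt × W → Vt × W} (ha : D.InA a) :
    D.qO O (s.sg ∘ a) = D.qO O a ^ q := by
  obtain ⟨u, hu⟩ := ha.exists_fr O
  obtain ⟨u', hu'⟩ := (s.inA_sg ha).exists_fr O
  obtain ⟨i, c, hc, hi⟩ := hu'.2
  obtain ⟨j, d, hd, hj⟩ := hu.2
  obtain ⟨e, he, h1⟩ := s.fw_gm (qo2Sub hO) hu.1 i
  obtain ⟨e', he', h2⟩ := s.bw_gm (qo2Sub hO) hu'.1 j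
  have h3 : (u' : D.FF) = D.val (c * e) * u ^ q := by rw [hi, h1, map_mul, mul_assoc]
  have h4 : (u : D.FF) ^ q = D.val (d ^ q * e') * u' := by
    rw [map_mul, map_pow, mul_assoc, ← h2, ← mul_pow, ← hj]
  have h5 : c * e * (d ^ q * e') = 1 := by
    apply D.val_inj
    apply u'.mul_left_inj.mp
    rw [map_mul, mul_assoc, ← h4, ← h3, map_one, one_mul]
  rw [hu'.qO_eq, hu.qO_eq, ← QuotientGroup.mk_pow, mk_eq_iff]
  refine ⟨c * e, O.mul_mem _ _ hc he, ?_, left_ne_zero_of_mul_eq_one h5, by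
    rw [h3, Units.val_pow_eq_pow_val]⟩
  rw [inv_eq_of_mul_eq_one_right h5]
  exact O.mul_mem _ _ (_root_.pow_mem hd q) he'

theorem ht_sg (H : HtSys k D.KK) {a : Vt × W → Vt × W} (ha : D.InA a) :
    D.ht H (s.sg ∘ a) = q * D.ht H a :=
  ht_of_pow H (s.inA_sg ha) ha q fun _ hO => s.qO_sg hO ha

theorem exists_ht : ∃ h : ℤ[X] → ℕ,
    (∀ a b, h (a + b) + h (a - b) = 2 * h a + 2 * h b) ∧
    (∀ a, h (Polynomial.X * a) = q * h a) ∧
    (∀ a, h a = 0 ↔ ∀ x, aeval s.sV a x ∈ D.Lam) ∧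
    (∀ (N : ℕ) (a : ℤ[X]), ¬ p ∣ N → (∀ x : Vt, N • x ∈ D.Lam → aeval s.sV a x ∈ D.Lam) →
      N ^ 2 ∣ h a) := by
  obtain ⟨H⟩ := exists_htSys p D.xx D.adjoin_xx
  have hc : ∀ a, ((D.ht H (s.pol a)).toNat : ℤ) = D.ht H (s.pol a) := fun a =>
    Int.toNat_of_nonneg (ht_nonneg H (s.inA_pol a))
  refine ⟨fun a => (D.ht H (s.pol a)).toNat, fun a b => ?_, fun a => ?_, fun a => ?_,
    fun N a hN h => ?_⟩
  · zify
    rw [hc, hc, hc, hc, s.pol_add, s.pol_sub, ht_par H (s.inA_pol a) (s.inA_pol b)]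
  · zify
    rw [hc, hc, s.pol_X_mul, s.ht_sg H (s.inA_pol a)]
  · zify
    rw [hc, ht_eq_zero H (s.inA_pol a)]
    exact ⟨fun h x => (D.consta (s.inA_pol a) (map_add (s.pol a)) h (x, 0)).1,
      fun h c hc => D.Ka_add_const h (s.pol_vt a) hc⟩
  · obtain ⟨a', ha', h1⟩ := D.div_N hN (s.inA_pol a) h (s.pol_vt a)
    zify
    rw [hc, ← h1, ht_nsmul H ha']
    exact dvd_mul_right _ _

theorem weil (hs : ∀ x : Vt, (∀ c : ℚ, c • x ∈ D.Lam) → x = 0) : ∃ h : ℤ[X] → ℕ,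
    (∀ a b, h (a + b) + h (a - b) = 2 * h a + 2 * h b) ∧
    (∀ a, h (Polynomial.X * a) = q * h a) ∧ (∀ a, h a = 0 ↔ aeval s.sV a = 0) ∧
    (∀ (N : ℕ) (a : ℤ[X]), ¬ p ∣ N → (∀ x ∈ D.Lam, ∃ y ∈ D.Lam, aeval s.sV a x = N • y) →
      N ^ 2 ∣ h a) := by
  obtain ⟨h, h1, h2, h3, h4⟩ := s.exists_ht
  refine ⟨h, h1, h2, fun a => (h3 a).trans ⟨fun H => ?_, fun H x => ?_⟩, fun N a hN H => ?_⟩
  · refine LinearMap.ext fun x => hs _ fun c => ?_
    rw [← map_rat_smul]; exact H _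
  · rw [H]; exact D.Lam.zero_mem
  · refine h4 N a hN fun x hx => ?_
    obtain ⟨y, hy, e⟩ := H _ hx
    have h0 : (N : ℚ) ≠ 0 := by
      rintro h0
      exact hN (by rw [Nat.cast_eq_zero.1 h0]; exact dvd_zero _)
    rw [map_nsmul, ← Nat.cast_smul_eq_nsmul ℚ, ← Nat.cast_smul_eq_nsmul ℚ] at e
    rw [smul_right_injective Vt h0 e]; exact hy

theorem ker {a : ℤ[X]} (h : aeval s.sV a = 0) (y : W) : aeval s.sW a y ∈ D.C :=
  D.add_ker (s.inA_pol a) (fun x => by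
    rw [pol_apply, h]
    exact D.Lam.zero_mem) (s.pol_vt a) (0, y)

end Sy

end TC

end Pool.Agent.RT.CP
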