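import Pool.Agent.Lib.MP_33b3f9_ag.M4.B2.WeilA
import Pool.Agent.Lib.MP_33b3f9_ag.M4.B2.WeilB

/-!
A common integral minimal polynomial from a height.
-/

set_option autoImplicit false

noncomputable section

namespace RG.B2

open Matrix Polynomial M4.B2

variable {n : Type} [Fintype n] [DecidableEq n] {h : ℤ[X] → ℕ} {B : ℤ[X] →ₗ[ℤ] ℤ[X] →ₗ[ℤ] ℤ}

theorem wq_aeval {S : Type} [CommRing S] (π : Matrix n n S) (a : ℤ[X]) :
    aeval π a = aeval π (a.map (Int.castRingHom S)) := by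
  rw [← algebraMap_int_eq, aeval_map_algebraMap]

theorem wq_ext2 {l : ℕ} [Fact l.Prime] (hp : Par h) (hB : IsPolar h B) {π : Matrix n n ℤ_[l]}
    (hd : ∀ (k : ℕ) (a : ℤ[X]), (∀ i j, (l : ℤ_[l]) ^ k ∣ aeval π a i j) → l ^ (2 * k) ∣ h a)
    {c : ℤ_[l][X]} (hc : aeval π c = 0) (b : ℤ_[l][X]) : ext2 ℤ_[l] B c b = 0 := by
  refine ext2_eq_zero (fun b => eq_zero_of_pow_dvd fun k => ?_) b
  obtain ⟨a, r, har⟩ := exists_poly_appr c k
  have ha : ∀ i j, (l : ℤ_[l]) ^ k ∣ aeval π a i j := fun i j => by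
    rw [wq_aeval, har, map_add, hc, zero_add, map_mul, aeval_C, ← Algebra.smul_def]
    exact ⟨_, rfl⟩
  have hb : ∀ i j, (l : ℤ_[l]) ^ k ∣ aeval π (((l : ℤ) ^ k) • b) i j := fun i j => by
    rw [map_smul, Matrix.smul_apply, zsmul_eq_mul]
    push_cast
    exact ⟨_, rfl⟩
  have h1 := Int.natCast_dvd_natCast.2 (hd k _ ha)
  have h2 := Int.natCast_dvd_natCast.2 (hd k _ hb)
  have h3 := Int.natCast_dvd_natCast.2 (hd k (a + ((l : ℤ) ^ k) • b) fun i j => by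
    rw [map_add, Matrix.add_apply]; exact dvd_add (ha i j) (hb i j))
  have h4 := dvd_sub (dvd_sub h3 h1) h2
  rw [← hB, map_smul, smul_eq_mul, two_mul] at h4
  push_cast at h4
  rw [pow_add, mul_dvd_mul_iff_left
    (pow_ne_zero _ (Int.natCast_ne_zero.2 (Fact.out : l.Prime).ne_zero))] at h4
  obtain ⟨k, hk⟩ := h4
  have h5 := ext2_map (R := ℤ_[l]) (B := B) a b
  rw [har, map_add, LinearMap.add_apply, ← smul_eq_C_mul, map_smul, LinearMap.smul_apply,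
    smul_eq_mul, hk] at h5
  push_cast at h5
  exact ⟨k - ext2 ℤ_[l] B r (b.map (Int.castRingHom ℤ_[l])), by linear_combination h5⟩

theorem exists_minpoly {P : Nat.Primes} (π : ∀ l : Nat.Primes, Matrix n n ℤ_[l]) (hp : Par h)
    (h0 : ∀ a, h a = 0 ↔ ∀ l, l ≠ P → aeval (π l) a = 0)
    (hd : ∀ l : Nat.Primes, l ≠ P → ∀ (k : ℕ) (a : ℤ[X]),
      (∀ i j, (l.1 : ℤ_[l]) ^ k ∣ aeval (π l) a i j) → l.1 ^ (2 * k) ∣ h a)
    {l₁ : Nat.Primes} (hl : l₁ ≠ P) : ∃ Q : ℤ[X], Q.Monic ∧ (∀ a, h a = 0 ↔ Q ∣ a) ∧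
      ∀ l : Nat.Primes, l ≠ P → ∀ c : ℤ_[l][X],
        aeval (π l) c = 0 ↔ Q.map (Int.castRingHom ℤ_[l]) ∣ c := by
  obtain ⟨B, hB⟩ := exists_polar hp
  let I : Ideal ℤ[X] := ⨅ l : {l : Nat.Primes // l ≠ P}, RingHom.ker (aeval (π l.1))
  have hI : ∀ a, h a = 0 ↔ a ∈ I := fun a => by
    rw [h0, Ideal.mem_iInf]
    exact ⟨fun H l => H l.1 l.2, fun H l hl => H ⟨l, hl⟩⟩
  have hI0 : I ≠ ⊥ := fun hb => by
    refine (π l₁).charpoly_monic.ne_zero (ext2_nondeg (r := Fintype.card n + 1) hp hB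
      (fun a _ ha => ?_) ?_ fun i _ => wq_ext2 hp hB (hd l₁ hl) (aeval_self_charpoly _) _)
    · have := (hI a).1 ha
      rwa [hb, Ideal.mem_bot] at this
    · rw [Matrix.charpoly_degree_eq_dim]
      exact_mod_cast Nat.lt_succ_self _
  obtain ⟨Q, hQ, hQh⟩ := exists_monic_gen hp I hI hI0
  refine ⟨Q, hQ, hQh, fun l hl c => ⟨fun hc => ?_, ?_⟩⟩
  · exact dvd_of_ext2 hp hB hQ hQh (wq_ext2 hp hB (hd l hl) hc)
  · rintro ⟨d, rfl⟩
    rw [map_mul, ← wq_aeval, (h0 Q).1 ((hQh Q).2 dvd_rfl) l hl, zero_mul]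

end RG.B2
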