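import Pool.Agent.Lib.MP_e97e2b_nt.RT.CP.GdC
import Pool.Agent.Lib.MP_e97e2b_nt.RT.CP.Sy
import Pool.Agent.Lib.MP_e97e2b_nt.RT.CP.WeilQ
import Pool.Agent.Lib.MP_33b3f9_ag.M4.B2.Frob

/-!
Semilinear symmetries of theta data at a good place and their minimal polynomial.
-/

set_option autoImplicit false
set_option linter.unusedSectionVars false

namespace RG.B2

open M4 M4.B2

open Matrix Polynomial

noncomputable section

variable [Dim]

variable {P : Nat.Primes} {ι' : Type} [Fintype ι']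

/-- An automorphism `t` that acts on the residue field as the `q`-th power, and its action `R` on
the torsion points; the space of sections is stable. -/
structure Sym (S : Gd P ι') (q : ℕ) where
  t : PadicAlgCl P ≃ₐ[ℚ_[P]] PadicAlgCl P
  R : ∀ l : Nat.Primes, GL ν ℤ_[l]
  red : ∀ x, ‖x‖ ≤ 1 → res (t x) = res x ^ q
  fw : ∀ f ∈ S.D.Γ 1, (fun x => cj S.e t (f ((rho R).symm x))) ∈ S.D.Γ 1

/-- The kernel of the reduction. -/
def Gd.Ker (S : Gd P ι') : AddSubgroup (ν → ℚ_[P]) :=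
  S.toTC.C.comap (QuotientAddGroup.mk' (IV P))

theorem Gd.mem_Ker {S : Gd P ι'} {y : ν → ℚ_[P]} : y ∈ S.Ker ↔ ∀ n, ∀ f ∈ S.D.Γ n, Intg S.e f →
    ∀ x : VA, res (S.e (f (x + iV P y))) = res (S.e (f x)) := by
  constructor
  · intro h n f hf hi x
    have h1 := h n _ ⟨f, hf, hi, rfl⟩ (redbPr P x)
    rw [QuotientAddGroup.mk'_apply, ← redb_iV, ← map_add, redb_pr, redb_pr] at h1
    rw [← redF_away S.D hf hi, ← redF_away S.D hf hi, h1]
  · rintro h n _ ⟨f, hf, hi, rfl⟩ z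
    rw [QuotientAddGroup.mk'_apply, ← redb_iV, ← redb_lift z, ← map_add, redb_pr, redb_pr,
      redF_away S.D hf hi, redF_away S.D hf hi, h n f hf hi]

theorem Gd.IV_le_Ker (S : Gd P ι') : IV P ≤ S.Ker := fun y hy => by
  rw [Gd.Ker, AddSubgroup.mem_comap, QuotientAddGroup.mk'_apply,
    (QuotientAddGroup.eq_zero_iff y).2 hy]
  exact zero_mem _

/-- Points with the same reduction. -/
theorem Gd.sep (S : Gd P ι') {x u : VA} {c : kk P}
    (h : ∀ i, res (S.e (S.D.X i (x + u))) = c * res (S.e (S.D.X i x))) :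
    (away P u : VA) ∈ TA ∧ cV P u ∈ S.Ker :=
  S.toTC.sep (z := redbPr P x) (u := redbPr P u) (c := c) fun i => by
    change redF S.e (S.D.X i) _ = c * redF S.e (S.D.X i) _
    rw [← map_add, redb_pr, redb_pr, redF_away S.D (S.D.X_mem i) (S.intg_X i),
      redF_away S.D (S.D.X_mem i) (S.intg_X i), h]

theorem redF_rho (D : TD0 ι') {e : ℂ ≃+* PadicAlgCl P} {n : ℕ} {f : VA → ℂ} (hf : f ∈ D.Γ n)
    (hi : Intg e f) (R : ∀ l : Nat.Primes, GL ν ℤ_[l]) (z : Vt P × WW P) :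
    redF e f (rhoV P R z.1, rhoW (R P) z.2) = res (e (f (rho R (lift z)))) := by
  have h : rhoW (R P) z.2 = ((mQ (R P) *ᵥ z.2.out : ν → ℚ_[P]) : WW P) := by
    conv_lhs => rw [← QuotientAddGroup.out_eq' z.2]
    rfl
  rw [h, redF_mk D hf hi, lift, map_add, rho_iV, coe_rhoV]

theorem Gd.exists_coef (S : Gd P ι') {f : VA → ℂ} (hf : f ∈ S.D.Γ 1) (hi : Intg S.e f) :
    ∃ c : ι' → kk P, ∀ z, redF S.e f z = ∑ j, c j * redF S.e (S.D.X j) z := by
  have h : redF S.e f ∈ GG S.D S.e 1 := ⟨f, hf, hi, rfl⟩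
  rw [S.span, Submodule.mem_span_range_iff_exists_fun] at h
  obtain ⟨c, hc⟩ := h
  exact ⟨c, fun z => by rw [← hc, Finset.sum_apply]; rfl⟩

theorem gd_line {y : Vt P} (h : ∀ q : ℚ, q • y ∈ Lam P) : y = 0 := by
  refine Subtype.ext (funext fun i => eq_zero_of_psi fun q => psi_eq_one.2 ?_)
  have := mem_TA.1 (mem_Lam.1 (h q)) i
  rwa [Submodule.coe_smul, Pi.smul_apply, Algebra.smul_def] at this

/-- A semilinear injective map of a finite dimensional space of functions is surjective. -/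
theorem semi_inv {V : Type} (Γ : Submodule ℂ (V → ℂ)) [FiniteDimensional ℂ Γ] (σ : ℂ ≃+* ℂ)
    (ρ : V ≃ V) (h : ∀ f ∈ Γ, (fun x => σ (f (ρ.symm x))) ∈ Γ) :
    ∀ f ∈ Γ, (fun x => σ.symm (f (ρ x))) ∈ Γ := by
  let b := Module.finBasis ℂ Γ
  let b' : Fin (Module.finrank ℂ Γ) → Γ := fun i => ⟨_, h _ (b i).2⟩
  have h1 : LinearIndependent ℂ b' := by
    rw [Fintype.linearIndependent_iff]
    intro c hc i
    have h2 := Fintype.linearIndependent_iff.1 b.linearIndependent (fun i => σ.symm (c i))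
      (Subtype.ext (funext fun x => σ.injective (by
        have h3 := congrFun (congrArg Subtype.val hc) (ρ x)
        simpa [b', Finset.sum_apply] using h3))) i
    exact σ.symm.injective (h2.trans (map_zero _).symm)
  intro f hf
  have h2 : (⟨f, hf⟩ : Γ) ∈ Submodule.span ℂ (Set.range b') := by
    rw [h1.span_eq_top_of_card_eq_finrank' (Fintype.card_fin _)]
    trivial
  obtain ⟨c, hc⟩ := (Submodule.mem_span_range_iff_exists_fun _).1 h2
  have h3 : (fun x => σ.symm (f (ρ x))) = ((∑ i, σ.symm (c i) • b i : Γ) : V → ℂ) := by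
    funext x
    have h4 := congrFun (congrArg Subtype.val hc) (ρ x)
    rw [RingEquiv.symm_apply_eq]
    simpa [b', Finset.sum_apply] using h4.symm
  rw [h3]
  exact Subtype.property _

variable {S : Gd P ι'} {q : ℕ} (T : Sym S q)

theorem Sym.bw : ∀ f ∈ S.D.Γ 1, (fun x => cj S.e T.t.symm (f (rho T.R x))) ∈ S.D.Γ 1 := by
  have := S.D.fin 1 le_rfl
  exact semi_inv (S.D.Γ 1) (cj S.e T.t) (rho T.R).toEquiv T.fw

theorem Sym.intg_fw {f : VA → ℂ} (hi : Intg S.e f) :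
    Intg S.e fun x => cj S.e T.t (f ((rho T.R).symm x)) := fun x => by
  rw [e_cj, norm_aut]
  exact hi _

theorem Sym.intg_bw {f : VA → ℂ} (hi : Intg S.e f) :
    Intg S.e fun x => cj S.e T.t.symm (f (rho T.R x)) := fun x => by
  rw [e_cj, norm_aut]
  exact hi _

/-- The symmetry of the reduced data. -/
def Sym.toSy : S.toTC.Sy q where
  sV := (rhoV P T.R).toAddMonoidHom.toIntLinearMap
  sW := (rhoW (T.R P)).toAddMonoidHom.toIntLinearMap
  fw i := by
    obtain ⟨τ, hτ⟩ := frob_bar T.t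
    have h1 : ∀ a, τ a = a ^ q := fun a => by
      obtain ⟨x, hx, rfl⟩ := res_surj a
      rw [← hτ x hx, T.red x hx]
    obtain ⟨c, hc⟩ := S.exists_coef (T.bw _ (S.D.X_mem i)) (T.intg_bw (S.intg_X i))
    refine ⟨fun j => τ (c j), fun z => ?_⟩
    have h2 := congrArg τ (hc z)
    rw [redF, ← hτ _ (T.intg_bw (S.intg_X i) _), e_cj, AlgEquiv.apply_symm_apply, map_sum] at h2
    simp only [map_mul, h1 (redF _ _ _)] at h2
    exact (redF_rho S.D (S.D.X_mem i) (S.intg_X i) T.R z).trans h2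
  bw j := by
    obtain ⟨c, hc⟩ := S.exists_coef (T.fw _ (S.D.X_mem j)) (T.intg_fw (S.intg_X j))
    refine ⟨c, fun z => ?_⟩
    have h2 := hc (rhoV P T.R z.1, rhoW (T.R P) z.2)
    rw [redF_rho S.D (T.fw _ (S.D.X_mem j)) (T.intg_fw (S.intg_X j)), LinearEquiv.symm_apply_apply, e_cj,
      T.red _ (S.intg_X j _)] at h2
    exact h2

theorem gd_mQ {l : ℕ} [Fact l.Prime] (g : Matrix ν ν ℤ_[l]) (a : ℤ[X]) :
    mQ (aeval g a) = aeval (mQ g) a :=
  (aeval_algHom_apply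
    ((PadicInt.Coe.ringHom (p := l)).mapMatrix (m := ν)).toIntAlgHom g a).symm

theorem gd_ind {M N : Type} [AddCommGroup M] [AddCommGroup N] {F : Type} [CommRing F] [Module F N]
    (φ : M →+ N) (u : Module.End ℤ M) (w : Module.End F N) (h : ∀ x, φ (u x) = w (φ x))
    (a : ℤ[X]) (x : M) : φ (aeval u a x) = aeval w a (φ x) := by
  induction a using Polynomial.induction_on with
  | C c =>
    rw [aeval_C, aeval_C, Module.algebraMap_end_apply, map_zsmul, eq_intCast,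
      Module.End.intCast_apply]
  | add a b ha hb => rw [map_add, map_add, LinearMap.add_apply, LinearMap.add_apply, map_add, ha, hb]
  | monomial n c ih =>
    rw [pow_succ', mul_left_comm, map_mul, map_mul (aeval w), aeval_X, aeval_X,
      Module.End.mul_apply, Module.End.mul_apply, h, ih]

theorem gd_toLin {l : ℕ} [Fact l.Prime] (g : Matrix ν ν ℚ_[l]) (a : ℤ[X]) (s : ν → ℚ_[l]) :
    aeval (Matrix.toLinAlgEquiv' g) a s = aeval g a *ᵥ s := by
  have h := aeval_algHom_apply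
    ((Matrix.toLinAlgEquiv' (R := ℚ_[l]) (n := ν)).toRingEquiv.toRingHom.toIntAlgHom) g a
  exact (LinearMap.congr_fun h s).trans (Matrix.toLinAlgEquiv'_apply _ _)

theorem Sym.cV_pol (a : ℤ[X]) (x : Vt P) (l : Nat.Primes) :
    cV l ((aeval T.toSy.sV a x : Vt P) : VA) =
      mQ (aeval (T.R l : Matrix ν ν ℤ_[l]) a) *ᵥ cV l (x : VA) := by
  rw [gd_mQ, ← gd_toLin]
  exact gd_ind (AddMonoidHom.mk' (fun x : Vt P => cV l (x : VA)) fun _ _ => cV_add l _ _) _ _
    (fun x => (cV_rho T.R x l).trans (Matrix.toLinAlgEquiv'_apply _ _).symm) a x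

theorem Sym.mk_pol (a : ℤ[X]) (y : ν → ℚ_[P]) :
    ((mQ (aeval (T.R P : Matrix ν ν ℤ_[P]) a) *ᵥ y : ν → ℚ_[P]) : WW P) =
      aeval T.toSy.sW a (y : WW P) := by
  rw [gd_mQ, ← gd_toLin]
  induction a using Polynomial.induction_on with
  | C c =>
    rw [aeval_C, aeval_C, Module.algebraMap_end_apply, eq_intCast, Module.End.intCast_apply,
      QuotientAddGroup.mk_zsmul]
  | add a b ha hb =>
    rw [map_add, map_add, LinearMap.add_apply, LinearMap.add_apply, QuotientAddGroup.mk_add, ha, hb]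
  | monomial n c ih =>
    rw [pow_succ', mul_left_comm, map_mul, map_mul (aeval T.toSy.sW), aeval_X, aeval_X,
      Module.End.mul_apply, Module.End.mul_apply, ← ih, Matrix.toLinAlgEquiv'_apply]
    rfl

theorem Sym.pol_eq_zero (a : ℤ[X]) : aeval T.toSy.sV a = 0 ↔
    ∀ l : Nat.Primes, l ≠ P → aeval (T.R l : Matrix ν ν ℤ_[l]) a = 0 := by
  constructor
  · intro h l hl
    ext i j
    have h1 := congrFun (T.cV_pol a ⟨iV l (Pi.single j 1), fun _ => cp_inc_ne hl.symm _⟩ l) i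
    rw [h, cV_iV_self, mulVec_single_one] at h1
    refine Subtype.ext (h1.symm.trans ?_)
    exact map_zero (cp l)
  · intro h
    refine LinearMap.ext fun x => Subtype.ext (VA_ext fun l => ?_)
    by_cases hl : l = P
    · subst hl
      rw [cV_Vt, cV_Vt]
    · rw [T.cV_pol, h l hl]
      funext i
      simp [mQ, mulVec, dotProduct, cV]

theorem Sym.pol_lam {l : Nat.Primes} (n : ℕ) (a : ℤ[X])
    (h : ∀ i j, (l.1 : ℤ_[l]) ^ n ∣ aeval (T.R l : Matrix ν ν ℤ_[l]) a i j) (x : Vt P)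
    (hx : x ∈ Lam P) : ∃ y ∈ Lam P, aeval T.toSy.sV a x = l.1 ^ n • y := by
  have hl : ((l.1 ^ n : ℕ) : ℚ) ≠ 0 := by exact_mod_cast pow_ne_zero n l.2.ne_zero
  refine ⟨((l.1 ^ n : ℕ) : ℚ)⁻¹ • aeval T.toSy.sV a x, mem_Lam.2 (mem_TA_iff.2 fun l' i => ?_),
    by rw [← Nat.cast_smul_eq_nsmul ℚ, smul_smul, mul_inv_cancel₀ hl, one_smul]⟩
  have hx' := mem_TA_iff.1 (mem_Lam.1 hx) l'
  rw [Submodule.coe_smul, cV_qsmul, T.cV_pol]
  push_cast
  by_cases e : l' = l
  · subst e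
    choose b hb using h
    have h1 : mQ (aeval (T.R l' : Matrix ν ν ℤ_[l']) a) =
        (l'.1 : ℚ_[l']) ^ n • mQ (Matrix.of b) := by
      ext i j
      simp [mQ, hb]
    have h2 : (l'.1 : ℚ_[l']) ^ n ≠ 0 := pow_ne_zero _ (by exact_mod_cast l'.2.ne_zero)
    rw [h1, smul_mulVec, smul_smul, inv_mul_cancel₀ h2, one_smul]
    exact mQ_mulVec_le _ hx' i
  · have h1 : ‖(l.1 : ℚ_[l'])‖ = 1 := (Padic.norm_natCast_eq_one_iff (p := l') (n := l.1)).2
      ((Nat.coprime_primes l'.2 l.2).2 fun h => e (Subtype.ext h))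
    rw [Pi.smul_apply, smul_eq_mul, norm_mul, norm_inv, norm_pow, h1, one_pow, inv_one, one_mul]
    exact mQ_mulVec_le _ hx' i

/-- A polynomial that kills the symmetry away from `P` maps the `P`-power torsion to the kernel of
the reduction. -/
theorem Sym.ker {a : ℤ[X]} (h : ∀ l : Nat.Primes, l ≠ P → aeval (T.R l : Matrix ν ν ℤ_[l]) a = 0)
    (y : ν → ℚ_[P]) : mQ (aeval (T.R P : Matrix ν ν ℤ_[P]) a) *ᵥ y ∈ S.Ker := by
  rw [Gd.Ker, AddSubgroup.mem_comap, QuotientAddGroup.mk'_apply, T.mk_pol]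
  exact T.toSy.ker ((T.pol_eq_zero a).2 h) _

/-- The theorem of Weil for the minimal polynomial. -/
theorem Sym.weil : ∃ Q : ℤ[X], Q.Monic ∧
    (∀ l : Nat.Primes, l ≠ P → ∀ c : ℤ_[l][X],
      aeval (T.R l : Matrix ν ν ℤ_[l]) c = 0 ↔ Q.map (Int.castRingHom ℤ_[l]) ∣ c) ∧
    (∀ l : Nat.Primes, l ≠ P → aeval (T.R l : Matrix ν ν ℤ_[l]) Q = 0) ∧
    ∀ z : ℂ, aeval z Q = 0 → ‖z‖ ^ 2 = q := by
  obtain ⟨h, par, hX, h0, hN⟩ := T.toSy.weil fun _ => gd_line
  obtain ⟨Q, hQ, h1, h2⟩ := exists_minpoly (P := P) (fun l => (T.R l : Matrix ν ν ℤ_[l])) par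
    (fun a => (h0 a).trans (T.pol_eq_zero a)) (fun l hl k a ha => by
      have hd : ¬ P.1 ∣ l.1 ^ k := fun hd => hl (Subtype.ext
        ((Nat.prime_dvd_prime_iff_eq P.2 l.2).1 (P.2.dvd_of_dvd_pow hd)).symm)
      have h6 := hN (l.1 ^ k) a hd (T.pol_lam k a ha)
      rwa [← pow_mul, mul_comm] at h6)
    (l₁ := ⟨2, Nat.prime_two⟩) fun e => S.odd (congrArg Subtype.val e).symm
  exact ⟨Q, hQ, h2, (T.pol_eq_zero Q).1 ((h0 Q).1 ((h1 Q).2 dvd_rfl)),
    fun z hz => norm_root_sq par hX hQ h1 hz⟩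

end

end RG.B2
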