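import Pool.Agent.Lib.MP_e97e2b_nt.RT.CP.Lip
import Pool.Agent.Lib.MP_e97e2b_nt.RT.CP.Lie
import Pool.Agent.Lib.MP_e97e2b_nt.RT.CP.Dif

/-!
The action of inertia on a point of order `P` in the kernel of the reduction.
-/

set_option autoImplicit false
set_option linter.unusedSectionVars false

namespace RG.B2

open M4 M4.B2 Pool.Agent.RT.CP

open Matrix Polynomial

noncomputable section

variable [Dim]

variable {P : Nat.Primes} {ι' : Type} [Fintype ι'] (S : Gd P ι')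

/-- The affine coordinates. -/
def Gd.aff (i : ι') (x : VA) : PadicAlgCl P := S.e (S.D.X i x) / S.e (S.D.X S.D.i0 x)

theorem Gd.aff_zero (i : ι') : S.aff i 0 = S.e (S.D.X i 0) := by
  rw [Gd.aff, S.D.X_zero, map_one, div_one]

theorem Gd.aff_per (i : ι') (x : VA) {l : VA} (hl : l ∈ TA) : S.aff i (x + l) = S.aff i x := by
  rw [Gd.aff, Gd.aff, S.D.per' (S.D.X_mem i) hl, S.D.per' (S.D.X_mem _) hl, map_mul, map_mul,
    mul_div_mul_left _ _ ((map_ne_zero S.e).2 (psi_ne _))]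

theorem Gd.dd_X (u : VA) (i : ι') : S.dd u 1 (S.D.X i) = S.aff i u - S.aff i 0 := by
  rw [Gd.dd, pow_one, S.aff_zero, Gd.aff]

variable {y : ν → ℚ_[P]}

theorem Gd.res_X (hy : y ∈ S.Ker) (i : ι') :
    res (S.e (S.D.X i (iV P y))) = res (S.e (S.D.X i 0)) := by
  simpa using Gd.mem_Ker.1 hy 1 _ (S.D.X_mem i) (S.intg_X i) 0

theorem Gd.norm_X0 (hy : y ∈ S.Ker) : ‖S.e (S.D.X S.D.i0 (iV P y))‖ = 1 := by
  refine le_antisymm (S.intg_X _ _) (not_lt.1 fun h => ?_)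
  have h1 := (res_eq_zero h.le).2 h
  rw [S.res_X hy, S.D.X_zero, map_one, res_one] at h1
  exact one_ne_zero h1

theorem Gd.dd_lt (hy : y ∈ S.Ker) (i : ι') : ‖S.dd (iV P y) 1 (S.D.X i)‖ < 1 := by
  have h0 := S.norm_X0 hy
  have h1 : S.e (S.D.X S.D.i0 (iV P y)) ≠ 0 := norm_pos_iff.1 (by rw [h0]; exact one_pos)
  rw [Gd.dd, pow_one, div_sub' h1, norm_div, h0, div_one, ← res_eq_iff (S.intg_X _ _) (by
    rw [norm_mul, h0, one_mul]; exact S.intg_X _ _), res_mul h0.le (S.intg_X _ _), S.res_X hy,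
    S.res_X hy, S.D.X_zero, map_one, res_one, one_mul]

theorem Gd.dif (hy : y ∈ S.Ker) {π : PadicAlgCl P} (hπ : ‖π‖ < 1) (h0 : π ≠ 0)
    (hr : ∀ i, ‖S.dd (iV P y) 1 (S.D.X i)‖ ≤ ‖π‖) (a : ι') (j : ℕ) :
    ‖(fwdDiff 1)^[j] (fun k : ℕ => S.aff a (k • iV P y)) 0‖ ≤ ‖π‖ ^ j := by
  have h1 : ∀ k : ℕ, ‖S.e (S.D.X S.D.i0 (k • iV P y))‖ = 1 := fun k => by
    rw [← map_nsmul]
    exact S.norm_X0 (S.Ker.nsmul_mem hy k)
  have h2 : ∀ k : ℕ, S.e (S.D.X S.D.i0 (k • iV P y)) ≠ 0 := fun k =>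
    norm_pos_iff.1 (by rw [h1]; exact one_pos)
  have hT : ∀ i (k : ℕ), ‖S.aff i (k • iV P y)‖ ≤ 1 := fun i k => by
    rw [Gd.aff, norm_div, h1, div_one]
    exact S.intg_X _ _
  have h3 : ∀ a (x z : VA), S.e (S.D.X S.D.i0 x) ≠ 0 → S.e (S.D.X S.D.i0 z) ≠ 0 →
      ∑ j, ∑ l, ∑ m, ∑ o, S.e (S.D.cl a S.D.i0 j l m o) * (S.aff j x * S.aff l x) *
        (S.aff m z * S.aff o z) = S.e (S.D.X a (x + z)) * S.e (S.D.X S.D.i0 (x - z)) /
          (S.e (S.D.X S.D.i0 x) ^ 2 * S.e (S.D.X S.D.i0 z) ^ 2) := fun a x z hx hz => by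
    rw [← map_mul, S.D.law]
    simp only [map_sum, map_mul, Finset.sum_div, Gd.aff]
    exact Finset.sum_congr rfl fun _ _ => Finset.sum_congr rfl fun _ _ =>
      Finset.sum_congr rfl fun _ _ => Finset.sum_congr rfl fun _ _ => by field_simp
  obtain ⟨g, hg, h4⟩ := Germ.iter (T := fun i (k : ℕ) => S.aff i (k • iV P y)) hπ.le
    (germ_co hπ h0 hT (fun i => by simpa only [one_smul, zero_smul, ← S.dd_X] using hr i)
      (c := fun a => fun j l m o => S.e (S.D.cl a S.D.i0 j l m o))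
      (fun a => S.good_cl a S.D.i0) (i0 := S.D.i0) (fun k => div_self (h2 k)) (fun a k => by
        have h5 := h2 k
        rw [h3 a _ _ (h2 k) (h2 0), zero_smul, add_zero, sub_zero, S.D.X_zero, Gd.aff]
        simp only [map_one]
        field_simp) fun a k => by
        have h5 := h2 (k + 1)
        rw [h3 a _ _ (h2 k) (h2 1), h3 _ _ _ (h2 k) (h2 1), ← add_smul, Gd.aff, mul_div_assoc',
          ← mul_assoc, div_mul_cancel₀ _ h5]) j (Germ.co a)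
  rw [h4, Pi.smul_apply, smul_eq_mul, norm_mul, norm_pow]
  exact mul_le_of_le_one_right (by positivity) (hg.norm_le hT 0)

variable {u : VA} {π : PadicAlgCl P}

theorem Gd.dd_div (hu : ‖S.e (S.D.X S.D.i0 u)‖ = 1) (hr : ∀ i, ‖S.dd u 1 (S.D.X i)‖ ≤ ‖π‖)
    {n : ℕ} {f : VA → ℂ} (hf : f ∈ S.D.Γ n) (hi : Intg S.e f) : ‖S.dd u n f / π‖ ≤ 1 := by
  obtain ⟨z, hz⟩ := S.lip hu hr hf
  rw [norm_div]
  exact div_le_one_of_le₀ (hz.trans (mul_le_of_le_one_left (norm_nonneg _) (hi _))) (norm_nonneg _)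

open Classical in
/-- The derivation in the direction of `u`. -/
def Gd.dr (u : VA) (π : PadicAlgCl P) (n : ℕ) (g : Vt P × WW P → kk P) : kk P :=
  if h : g ∈ GG S.D S.e n then res (S.dd u n (mem_GG.1 h).choose / π) else 0

theorem Gd.dr_eq (hu : ‖S.e (S.D.X S.D.i0 u)‖ = 1) (hr : ∀ i, ‖S.dd u 1 (S.D.X i)‖ ≤ ‖π‖)
    (h0 : π ≠ 0) {n : ℕ} {f : VA → ℂ} (hf : f ∈ S.D.Γ n) (hi : Intg S.e f) :
    S.dr u π n (redF S.e f) = res (S.dd u n f / π) := by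
  have h : redF S.e f ∈ GG S.D S.e n := ⟨f, hf, hi, rfl⟩
  rw [Gd.dr, dif_pos h]
  obtain ⟨h1, h2, h3⟩ := (mem_GG.1 h).choose_spec
  generalize (mem_GG.1 h).choose = g at h1 h2 h3 ⊢
  obtain ⟨z, hz⟩ := S.lip hu hr (add_mem h1 (Submodule.smul_mem _ (-1) hf))
  have h4 : 0 < ‖π‖ := norm_pos_iff.2 h0
  rw [res_eq_iff (S.dd_div hu hr h1 h2) (S.dd_div hu hr hf hi), ← sub_div, norm_div, div_lt_one h4]
  rw [S.dd_add, S.dd_smul, map_neg, map_one, neg_one_mul, ← sub_eq_add_neg] at hz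
  refine hz.trans_lt (mul_lt_of_lt_one_left h4 ?_)
  rw [neg_one_smul, ← sub_eq_add_neg, Pi.sub_apply, map_sub]
  exact (res_eq_iff (h2 _) (hi _)).1 (congrFun h3 z)

theorem redF_origin (D : TD0 ι') {e : ℂ ≃+* PadicAlgCl P} {n : ℕ} {f : VA → ℂ} (hf : f ∈ D.Γ n)
    (hi : Intg e f) : redF e f 0 = res (e (f 0)) := redF_zero_right D hf hi 0

/-- The derivation on the reduced data. -/
def Gd.der (hu : ‖S.e (S.D.X S.D.i0 u)‖ = 1) (hr : ∀ i, ‖S.dd u 1 (S.D.X i)‖ ≤ ‖π‖)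
    (h0 : π ≠ 0) (h1 : ‖π‖ < 1) : S.toTC.Der where
  i0 := S.D.i0
  d := S.dr u π
  one := (redF_origin S.D (S.D.X_mem _) (S.intg_X _)).trans (by rw [S.D.X_zero, map_one, res_one])
  add := by
    rintro n _ ⟨f, hf, hi, rfl⟩ _ ⟨g, hg, hj, rfl⟩
    rw [← redF_add hi hj, S.dr_eq hu hr h0 (add_mem hf hg) (hi.add hj), S.dr_eq hu hr h0 hf hi,
      S.dr_eq hu hr h0 hg hj, S.dd_add, add_div,
      res_add (S.dd_div hu hr hf hi) (S.dd_div hu hr hg hj)]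
  smul := by
    rintro n a _ ⟨f, hf, hi, rfl⟩
    obtain ⟨c, hc, rfl⟩ := res_surj a
    obtain ⟨c, rfl⟩ := S.e.surjective c
    rw [← redF_smul hi hc, S.dr_eq hu hr h0 (Submodule.smul_mem _ _ hf) (hi.smul hc),
      S.dr_eq hu hr h0 hf hi, S.dd_smul, mul_div_assoc, res_mul hc (S.dd_div hu hr hf hi)]
  mul := by
    rintro n m _ ⟨f, hf, hi, rfl⟩ _ ⟨g, hg, hj, rfl⟩
    have h2 := S.dd_div hu hr hf hi
    have h3 := S.dd_div hu hr hg hj
    have h4 := S.dd_le hu hj m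
    have h5 : res (S.dd u m g + S.e (g 0)) = res (S.e (g 0)) := by
      rw [res_eq_iff h4 (hj 0), add_sub_cancel_right]
      rw [norm_div, div_le_one (norm_pos_iff.2 h0)] at h3
      exact h3.trans_lt h1
    rw [← redF_mul hi hj, S.dr_eq hu hr h0 (S.D.mul_mem _ _ _ _ hf hg) (hi.mul hj),
      S.dr_eq hu hr h0 hf hi, S.dr_eq hu hr h0 hg hj, S.dd_mul, add_div, mul_div_right_comm,
      mul_div_assoc, res_add (by rw [norm_mul]; exact mul_le_one₀ h2 (norm_nonneg _) h4)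
        (by rw [norm_mul]; exact mul_le_one₀ (hi 0) (norm_nonneg _) h3), res_mul h2 h4,
      res_mul (hi 0) h3, h5, redF_origin S.D hf hi, redF_origin S.D hg hj]

theorem tame_res {K : Type} [Field K] {κ π a d ε b : K} (c : ℕ) (h0 : π ≠ 0) (hb : b ≠ 0) :
    (κ * (a + c * d + ε) - a) / π =
      (κ - 1) / π * a + (κ * (c * (b / π * (d / b))) + κ * ε / π) := by
  field_simp
  ring

variable {S}

theorem Sym.red_symm (T : Sym S 1) {x : PadicAlgCl P} (hx : ‖x‖ ≤ 1) :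
    res (T.t.symm x) = res x := by
  have h := T.red (T.t.symm x) (by rwa [norm_aut])
  rw [AlgEquiv.apply_symm_apply, pow_one] at h
  exact h.symm

theorem Sym.dr_sg (T : Sym S 1) (hy : y ∈ S.Ker) (h1 : ‖π‖ < 1) (h0 : π ≠ 0)
    (hr : ∀ i, ‖S.dd (iV P y) 1 (S.D.X i)‖ ≤ ‖π‖) {c : ℕ}
    (hc : mQ (T.R P) *ᵥ y - c • y ∈ IV P) : ∃ b : kk P, ∀ i,
      S.dr (iV P y) π 1 (redF S.e (S.D.X i) ∘ T.toSy.sg) =
        c * res (T.t.symm π / π) * S.dr (iV P y) π 1 (redF S.e (S.D.X i)) +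
          b * redF S.e (S.D.X i) 0 := by
  have hu := S.norm_X0 hy
  have h2 : rho T.R (iV P y) = c • iV P y + iV P (mQ (T.R P) *ᵥ y - c • y) := by
    rw [rho_iV, ← map_nsmul, ← map_add, add_sub_cancel]
  have h3 : ‖S.e (S.D.X S.D.i0 (rho T.R (iV P y)))‖ = 1 := by
    rw [h2, ← map_nsmul, ← map_add]
    exact S.norm_X0 (add_mem (S.Ker.nsmul_mem hy c) (S.IV_le_Ker hc))
  obtain ⟨κ, hκ⟩ : ∃ κ, κ = T.t.symm (S.e (S.D.X S.D.i0 (rho T.R (iV P y)))) /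
    S.e (S.D.X S.D.i0 (iV P y)) := ⟨_, rfl⟩
  have h4 : ∀ i, S.dd (iV P y) 1 (fun x => cj S.e T.t.symm (S.D.X i (rho T.R x))) =
      κ * T.t.symm (S.aff i (c • iV P y)) - T.t.symm (S.aff i 0) := fun i => by
    have h5 : T.t.symm (S.e (S.D.X S.D.i0 (rho T.R (iV P y)))) ≠ 0 :=
      norm_pos_iff.1 (by rw [norm_aut, h3]; exact one_pos)
    rw [← S.aff_per i _ (iV_mem_TA.2 hc), ← h2, S.aff_zero, Gd.dd, Gd.aff, e_cj, e_cj, map_zero,
      pow_one, hκ, map_div₀, div_mul_div_comm, mul_comm (S.e _), mul_div_mul_left _ _ h5]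
  have h5 : ∀ i, ‖(κ * T.t.symm (S.aff i (c • iV P y)) - T.t.symm (S.aff i 0)) / π‖ ≤ 1 :=
    fun i => h4 i ▸ S.dd_div hu hr (T.bw _ (S.D.X_mem i)) (T.intg_bw (S.intg_X i))
  have h6 : ‖(κ - 1) / π‖ ≤ 1 := by
    have h7 := h5 S.D.i0
    have h8 : ‖S.e (S.D.X S.D.i0 (c • iV P y))‖ = 1 := by
      rw [← map_nsmul]
      exact S.norm_X0 (S.Ker.nsmul_mem hy c)
    rw [S.aff_zero, S.D.X_zero, Gd.aff, div_self (norm_pos_iff.1 (by rw [h8]; exact one_pos))] at h7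
    simpa only [map_one, mul_one] using h7
  have hp : 0 < ‖π‖ := norm_pos_iff.2 h0
  have h7 : ‖κ‖ = 1 := by rw [hκ, norm_div, norm_aut, h3, hu, div_one]
  have h8 : res κ = 1 := by
    rw [← res_one, res_eq_iff h7.le norm_one.le]
    rw [norm_div, div_le_one hp] at h6
    exact h6.trans_lt h1
  have h9 : ‖T.t.symm π / π‖ = 1 := by rw [norm_div, norm_aut, div_self hp.ne']
  refine ⟨res ((κ - 1) / π), fun i => ?_⟩
  have e1 : redF S.e (S.D.X i) ∘ T.toSy.sg =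
      redF S.e fun x => cj S.e T.t.symm (S.D.X i (rho T.R x)) := funext fun z => by
    rw [redF, e_cj, T.red_symm (S.intg_X _ _)]
    exact redF_rho S.D (S.D.X_mem i) (S.intg_X i) T.R z
  have e2 := dif_lin h1.le (S.dif hy h1 h0 hr i) c
  simp only [one_smul, zero_smul] at e2
  rw [← S.dd_X (iV P y) i] at e2
  obtain ⟨ε, hε⟩ : ∃ ε, ε = S.aff i (c • iV P y) - S.aff i 0 -
    c * S.dd (iV P y) 1 (S.D.X i) := ⟨_, rfl⟩
  have e3 : S.aff i (c • iV P y) = S.aff i 0 + c * S.dd (iV P y) 1 (S.D.X i) + ε := by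
    rw [hε]
    ring
  have e4 : ‖κ * T.t.symm ε / π‖ < 1 := by
    rw [norm_div, norm_mul, h7, one_mul, norm_aut, div_lt_one hp, hε]
    exact e2.trans_lt (by rw [sq]; exact mul_lt_of_lt_one_left hp h1)
  have e5 := S.dd_div hu hr (S.D.X_mem i) (S.intg_X i)
  have e6 : ‖T.t.symm (S.dd (iV P y) 1 (S.D.X i) / π)‖ ≤ 1 := by rwa [norm_aut]
  have e7 : ‖T.t.symm (S.aff i 0)‖ ≤ 1 := by
    rw [norm_aut, S.aff_zero]
    exact S.intg_X _ _
  have e8 : ‖T.t.symm π / π * T.t.symm (S.dd (iV P y) 1 (S.D.X i) / π)‖ ≤ 1 := by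
    rwa [norm_mul, h9, one_mul]
  have e9 : ‖(c : PadicAlgCl P) *
      (T.t.symm π / π * T.t.symm (S.dd (iV P y) 1 (S.D.X i) / π))‖ ≤ 1 := by
    rw [norm_mul]
    exact mul_le_one₀ (IsUltrametricDist.norm_natCast_le_one _ _) (norm_nonneg _) e8
  have e10 : ‖κ * (c * (T.t.symm π / π * T.t.symm (S.dd (iV P y) 1 (S.D.X i) / π)))‖ ≤ 1 := by
    rwa [norm_mul, h7, one_mul]
  rw [e1, S.dr_eq hu hr h0 (T.bw _ (S.D.X_mem i)) (T.intg_bw (S.intg_X i)), h4, e3, map_add,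
    map_add, map_mul, map_natCast, tame_res c h0 ((map_ne_zero T.t.symm).2 h0), ← map_div₀,
    res_add (by rw [norm_mul]; exact mul_le_one₀ h6 (norm_nonneg _) e7)
      ((IsUltrametricDist.norm_add_le_max _ _).trans (max_le e10 e4.le)), res_add e10 e4.le,
    (res_eq_zero e4.le).2 e4, res_mul h6 e7, res_mul h7.le e9,
    res_mul (IsUltrametricDist.norm_natCast_le_one _ _) e8, res_mul h9.le e6, T.red_symm e5, h8,
    res_natCast, S.aff_zero, T.red_symm (S.intg_X _ _),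
    S.dr_eq hu hr h0 (S.D.X_mem i) (S.intg_X i), redF_origin S.D (S.D.X_mem i) (S.intg_X i)]
  ring

variable (S)

/-- The tame weight of a point of order `P` in the kernel of the reduction. -/
theorem Gd.tame (hy : y ∈ S.Ker) (hP : P.1 • y ∈ IV P)
    (h : ¬ ∀ i, S.D.X i (iV P y) = S.D.X S.D.i0 (iV P y) * S.D.X i 0) :
    ∃ (i : ι') (π : PadicAlgCl P),
      π = S.e (S.D.X i (iV P y) / S.D.X S.D.i0 (iV P y) - S.D.X i 0) ∧ π ≠ 0 ∧ ‖π‖ < 1 ∧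
      ‖(P.1 : PadicAlgCl P)‖ ≤ ‖π‖ ^ (P.1 - 1) ∧ ∀ (T : Sym S 1) (c : ℕ),
        mQ (T.R P) *ᵥ y - c • y ∈ IV P → ∀ a : ℤ[X],
          (∀ l : Nat.Primes, l ≠ P → aeval (T.R l : Matrix ν ν ℤ_[l]) a = 0) →
          ∃ ξ : kk P, aeval ξ a = 0 ∧ (c : kk P) = ξ * res (T.t π / π) := by
  have : Nonempty ι' := ⟨S.D.i0⟩
  obtain ⟨i, hr⟩ := Finite.exists_max fun i => ‖S.dd (iV P y) 1 (S.D.X i)‖
  have hu := S.norm_X0 hy
  have h1 := S.dd_lt hy i
  have h0 : S.dd (iV P y) 1 (S.D.X i) ≠ 0 := fun h0 => h fun j => S.e.injective (by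
    have h2 := hr j
    rw [h0, norm_zero, norm_le_zero_iff, Gd.dd, pow_one, sub_eq_zero,
      div_eq_iff (norm_pos_iff.1 (by rw [hu]; exact one_pos))] at h2
    rw [h2, map_mul, mul_comm])
  refine ⟨i, S.dd (iV P y) 1 (S.D.X i), by rw [Gd.dd, pow_one, map_sub, map_div₀], h0, h1,
    dif_bound h1 h0 (S.dif hy h1 h0 hr i) P.2 (by simp only [one_smul, zero_smul, S.dd_X]) ?_,
    fun T c hc a ha => ?_⟩
  · simpa only [zero_add, zero_smul, map_nsmul] using S.aff_per i 0 (iV_mem_TA.2 hP)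
  · obtain ⟨b, hb⟩ := T.dr_sg hy h1 h0 hr hc
    have h2 := (S.der hu hr h0 h1).lie T.toSy (by
      refine (S.dr_eq hu hr h0 (S.D.X_mem S.D.i0) (S.intg_X _)).trans ?_
      rw [Gd.dd, pow_one, div_self (norm_pos_iff.1 (by rw [hu]; exact one_pos)), S.D.X_zero,
        map_one, sub_self, zero_div, res_zero]) hb ((T.pol_eq_zero a).2 ha) i
    have h3 : (S.der hu hr h0 h1).d 1 (S.toTC.X i) = 1 :=
      (S.dr_eq hu hr h0 (S.D.X_mem _) (S.intg_X _)).trans (by rw [div_self h0, res_one])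
    rw [h3, mul_one] at h2
    refine ⟨_, h2, ?_⟩
    clear h3
    generalize S.dd (iV P y) 1 (S.D.X i) = π at h0
    have h4 : ∀ t : PadicAlgCl P ≃ₐ[ℚ_[P]] PadicAlgCl P, ‖t π / π‖ ≤ 1 := fun t => by
      rw [norm_div, norm_aut, div_self (norm_ne_zero_iff.2 h0)]
    have h5 : T.t π ≠ 0 := (map_ne_zero T.t).2 h0
    rw [← T.red_symm (h4 T.t), mul_assoc, ← res_mul (h4 _) (by rw [norm_aut]; exact h4 _),
      map_div₀, AlgEquiv.symm_apply_apply, div_mul_div_comm, mul_comm π,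
      div_self (mul_ne_zero ((map_ne_zero T.t.symm).2 h0) h0), res_one, mul_one]

end

end RG.B2
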